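import Mathlib

set_option autoImplicit false

namespace Pool.Agent.H301R2.TR

/-- finitely many algebraic complex numbers lie in (the image of) a number field -/
theorem exists_field (s : Finset ℂ) (h : ∀ x ∈ s, IsAlgebraic ℚ x) :
    ∃ (F : Type) (_ : Field F) (_ : NumberField F) (φ : F →ₐ[ℚ] ℂ), ∀ x ∈ s, ∃ y : F, φ y = x := by
  classical
  have hfd : FiniteDimensional ℚ (IntermediateField.adjoin ℚ (s : Set ℂ)) := by
    apply IntermediateField.finiteDimensional_adjoin
    intro x hx
    exact (h x hx).isIntegral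
  have hnf : NumberField (IntermediateField.adjoin ℚ (s : Set ℂ)) := by
    refine @NumberField.mk _ _ ?_ ?_
    · infer_instance
    · convert hfd
  refine ⟨IntermediateField.adjoin ℚ (s : Set ℂ), inferInstance, hnf,
    ((algebraMap (IntermediateField.adjoin ℚ (s : Set ℂ)) ℂ)).toRatAlgHom, ?_⟩
  intro x hx
  exact ⟨⟨x, IntermediateField.subset_adjoin ℚ _ hx⟩, rfl⟩

end Pool.Agent.H301R2.TR
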