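import Mathlib

set_option autoImplicit false

namespace Pool.Agent.H301R2.TR

open Real

/-- `f` grows at most like `exp (C n^u (1 + log n))`. -/
def Good (u : ℕ) (f : ℕ → ℝ) : Prop :=
  ∃ C : ℝ, 0 ≤ C ∧ ∀ n : ℕ, 1 ≤ n → 1 ≤ f n ∧ f n ≤ exp (C * (n : ℝ) ^ u * (1 + log n))

theorem Good.mul {u : ℕ} {f g : ℕ → ℝ} (hf : Good u f) (hg : Good u g) :
    Good u (fun n => f n * g n) := by
  obtain ⟨C, hC, h1⟩ := hf
  obtain ⟨C', hC', h2⟩ := hg
  refine ⟨C + C', by positivity, fun n hn => ⟨?_, ?_⟩⟩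
  · have := (h1 n hn).1
    have := (h2 n hn).1
    nlinarith
  · have a1 := (h1 n hn)
    have a2 := (h2 n hn)
    calc f n * g n ≤ exp (C * (n : ℝ) ^ u * (1 + log n)) * exp (C' * (n : ℝ) ^ u * (1 + log n)) := by
          apply mul_le_mul a1.2 a2.2 (by linarith) (exp_pos _).le
      _ = _ := by rw [← exp_add]; congr 1; ring

theorem Good.const {u : ℕ} (c : ℝ) (hc : 1 ≤ c) : Good u (fun _ => c) := by
  refine ⟨log c, log_nonneg hc, fun n hn => ⟨hc, ?_⟩⟩
  have hn1 : (1 : ℝ) ≤ n := by exact_mod_cast hn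
  have h1 : (1 : ℝ) ≤ (n : ℝ) ^ u := one_le_pow₀ hn1
  have h2 : 0 ≤ log n := log_nonneg hn1
  have h3 : 0 ≤ log c := log_nonneg hc
  calc c = exp (log c) := (exp_log (by linarith)).symm
    _ ≤ _ := by
      apply exp_le_exp.mpr
      have : 1 ≤ (n : ℝ) ^ u * (1 + log n) := by nlinarith
      nlinarith

theorem Good.pow {u : ℕ} {f : ℕ → ℝ} (hf : Good u f) (k : ℕ) : Good u (fun n => f n ^ k) := by
  induction k with
  | zero => simpa using Good.const (u := u) 1 le_rfl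
  | succ k ih =>
    have := ih.mul hf
    simpa [pow_succ] using this

theorem Good.mono {u : ℕ} {f g : ℕ → ℝ} (hf : Good u f) (hg1 : ∀ n, 1 ≤ n → 1 ≤ g n)
    (h : ∀ n, 1 ≤ n → g n ≤ f n) : Good u g := by
  obtain ⟨C, hC, h1⟩ := hf
  exact ⟨C, hC, fun n hn => ⟨hg1 n hn, (h n hn).trans (h1 n hn).2⟩⟩

theorem Good.natPow {u : ℕ} (k : ℕ) : Good u (fun n => (n : ℝ) ^ k) := by
  refine ⟨k, Nat.cast_nonneg _, fun n hn => ?_⟩
  have hn1 : (1 : ℝ) ≤ n := by exact_mod_cast hn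
  refine ⟨one_le_pow₀ hn1, ?_⟩
  have h0 : (0 : ℝ) < n := by linarith
  have h2 : 0 ≤ log n := log_nonneg hn1
  have h1 : (1 : ℝ) ≤ (n : ℝ) ^ u := one_le_pow₀ hn1
  calc (n : ℝ) ^ k = exp (k * log n) := by
        rw [mul_comm, exp_mul, exp_log h0, rpow_natCast]
    _ ≤ _ := by
      apply exp_le_exp.mpr
      have hk : (0 : ℝ) ≤ k := Nat.cast_nonneg _
      have : log n ≤ (n : ℝ) ^ u * (1 + log n) := by nlinarith
      nlinarith

/-- a polynomially bounded base to a power at most `C n^u` -/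
theorem Good.powVar {u : ℕ} {f : ℕ → ℝ} (hf : Good 0 f) (g : ℕ → ℕ) (C' : ℝ)
    (hg : ∀ n, 1 ≤ n → (g n : ℝ) ≤ C' * (n : ℝ) ^ u) : Good u (fun n => f n ^ g n) := by
  obtain ⟨C, hC, h1⟩ := hf
  refine ⟨C * |C'|, by positivity, fun n hn => ⟨one_le_pow₀ (h1 n hn).1, ?_⟩⟩
  have hn1 : (1 : ℝ) ≤ n := by exact_mod_cast hn
  have h2 : 0 ≤ log n := log_nonneg hn1
  have h3 := (h1 n hn).2
  rw [pow_zero, mul_one] at h3
  have h4 : (0 : ℝ) ≤ f n := by linarith [(h1 n hn).1]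
  calc f n ^ g n ≤ (exp (C * (1 + log n))) ^ g n := pow_le_pow_left₀ h4 h3 _
    _ = exp (g n * (C * (1 + log n))) := by rw [← exp_nat_mul]
    _ ≤ _ := by
      apply exp_le_exp.mpr
      have h5 : (g n : ℝ) ≤ |C'| * (n : ℝ) ^ u := (hg n hn).trans (by
        apply mul_le_mul_of_nonneg_right (le_abs_self _) (by positivity))
      have h6 : 0 ≤ C * (1 + log n) := by positivity
      calc (g n : ℝ) * (C * (1 + log n)) ≤ (|C'| * (n : ℝ) ^ u) * (C * (1 + log n)) :=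
            mul_le_mul_of_nonneg_right h5 h6
        _ = _ := by ring

theorem Good.exp {u : ℕ} (g : ℕ → ℝ) (C' : ℝ) (hg0 : ∀ n, 1 ≤ n → 0 ≤ g n)
    (hg : ∀ n, 1 ≤ n → g n ≤ C' * (n : ℝ) ^ u) : Good u (fun n => Real.exp (g n)) := by
  refine ⟨|C'|, by positivity, fun n hn => ⟨one_le_exp (hg0 n hn), ?_⟩⟩
  have hn1 : (1 : ℝ) ≤ n := by exact_mod_cast hn
  have h2 : 0 ≤ log n := log_nonneg hn1
  apply exp_le_exp.mpr
  have h5 : g n ≤ |C'| * (n : ℝ) ^ u := (hg n hn).trans (by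
        apply mul_le_mul_of_nonneg_right (le_abs_self _) (by positivity))
  have h6 : 0 ≤ |C'| * (n : ℝ) ^ u := by positivity
  nlinarith

theorem Good.factorial {u : ℕ} (g : ℕ → ℕ) (C' : ℝ) (hg1 : ∀ n, 1 ≤ n → 1 ≤ g n)
    (hg : ∀ n, 1 ≤ n → (g n : ℝ) ≤ C' * (n : ℝ) ^ u) :
    Good u (fun n => ((g n).factorial : ℝ)) := by
  have h0 : Good 0 (fun n => (g n : ℝ)) := by
    have h1 : Good 0 (fun n => (max 1 |C'|) * (n : ℝ) ^ u) :=
      (Good.const (max 1 |C'|) (le_max_left _ _)).mul (Good.natPow u)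
    refine h1.mono (fun n hn => by exact_mod_cast hg1 n hn) (fun n hn => (hg n hn).trans ?_)
    have : C' ≤ max 1 |C'| := (le_abs_self _).trans (le_max_right _ _)
    exact mul_le_mul_of_nonneg_right this (by positivity)
  have h2 := Good.powVar (u := u) h0 g C' hg
  refine h2.mono (fun n _ => ?_) (fun n _ => ?_)
  · exact_mod_cast Nat.one_le_iff_ne_zero.mpr (Nat.factorial_ne_zero _)
  · exact_mod_cast Nat.factorial_le_pow (g n)

/-- the final comparison -/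
theorem Good.eventually_lt {u : ℕ} {f : ℕ → ℝ} (hf : Good u f) :
    ∃ n0 : ℕ, ∀ n ≥ n0, 1 ≤ n → f n ^ 2 < 2 ^ (n ^ (u + 1)) := by
  obtain ⟨C, hC, h1⟩ := hf.pow 2
  have hlim : Filter.Tendsto (fun x : ℝ => (1 + log x) / x) Filter.atTop (nhds 0) := by
    have h2 : Filter.Tendsto (fun x : ℝ => 1 / x + log x / x) Filter.atTop (nhds (0 + 0)) := by
      apply Filter.Tendsto.add
      · have h3 : Filter.Tendsto (fun x : ℝ => 1 / x) Filter.atTop (nhds 0) := by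
          have h4 : (fun x : ℝ => 1 / x) = fun x => x⁻¹ := by funext x; rw [one_div]
          rw [h4]
          exact tendsto_inv_atTop_zero
        exact h3
      · exact isLittleO_log_id_atTop.tendsto_div_nhds_zero
    rw [add_zero] at h2
    refine h2.congr (fun x => ?_)
    rw [add_div]
  have hε : (0 : ℝ) < (1 / 2) / (C + 1) := by positivity
  have hev := (hlim.comp tendsto_natCast_atTop_atTop).eventually (gt_mem_nhds hε)
  obtain ⟨n0, hn0⟩ := Filter.eventually_atTop.mp hev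
  refine ⟨n0, fun n hn hn1 => ?_⟩
  have h3 := hn0 n hn
  simp only [Function.comp_apply] at h3
  have hn1' : (1 : ℝ) ≤ n := by exact_mod_cast hn1
  have hnpos : (0 : ℝ) < n := by linarith
  rw [div_lt_iff₀ hnpos] at h3
  have h4 := (h1 n hn1).2
  refine lt_of_le_of_lt h4 ?_
  have h5 : (2 : ℝ) ^ (n ^ (u + 1)) = Real.exp (log 2 * (n : ℝ) ^ (u + 1)) := by
    rw [exp_mul, exp_log (by norm_num)]
    have : ((n : ℝ) ^ (u + 1)) = ((n ^ (u + 1) : ℕ) : ℝ) := by push_cast; rfl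
    rw [this, rpow_natCast]
  rw [h5]
  apply exp_lt_exp.mpr
  have h6 : (1 / 2 : ℝ) < log 2 := by have := log_two_gt_d9; linarith
  have hp : (0 : ℝ) < (n : ℝ) ^ u := by positivity
  have h7 : C * (1 + log n) ≤ (1 / 2) * n := by
    have h8 : C * (1 + log n) ≤ C * (1 / 2 / (C + 1) * n) := mul_le_mul_of_nonneg_left h3.le hC
    have h9 : C * (1 / 2 / (C + 1) * n) = (C / (C + 1)) * (1 / 2 * n) := by ring
    have h10 : C / (C + 1) ≤ 1 := by rw [div_le_one (by positivity)]; linarith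
    have h11 : (0 : ℝ) ≤ 1 / 2 * n := by positivity
    nlinarith
  calc C * (n : ℝ) ^ u * (1 + log n) = (n : ℝ) ^ u * (C * (1 + log n)) := by ring
    _ ≤ (n : ℝ) ^ u * (1 / 2 * n) := by gcongr
    _ = (1 / 2) * (n : ℝ) ^ (u + 1) := by ring
    _ < log 2 * (n : ℝ) ^ (u + 1) := by gcongr

end Pool.Agent.H301R2.TR
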