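import Mathlib

set_option autoImplicit false

namespace Pool.Agent.H301R2.TR

open Finset

/-- `(d/dw)^t [w^k e^{a w}] = LamC a k t w * e^{a w}`. -/
noncomputable def LamC (a : ℂ) (k t : ℕ) (w : ℂ) : ℂ :=
  ∑ j ∈ range (t + 1), (t.choose j : ℂ) * a ^ (t - j) * (k.descFactorial j : ℂ) * w ^ (k - j)

theorem descFactorial_add (k l t : ℕ) :
    (k + l).descFactorial t
      = ∑ j ∈ range (t + 1), t.choose j * k.descFactorial j * l.descFactorial (t - j) := by
  rw [Nat.descFactorial_eq_factorial_mul_choose, Nat.add_choose_eq,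
    Finset.Nat.sum_antidiagonal_eq_sum_range_succ_mk, Finset.mul_sum]
  apply Finset.sum_congr rfl
  intro j hj
  have hj' : j ≤ t := by simpa [Nat.lt_succ_iff] using hj
  rw [Nat.descFactorial_eq_factorial_mul_choose k j,
    Nat.descFactorial_eq_factorial_mul_choose l (t - j)]
  have := Nat.choose_mul_factorial_mul_factorial hj'
  calc t.factorial * (k.choose j * l.choose (t - j))
      = (t.choose j * j.factorial * (t - j).factorial) * (k.choose j * l.choose (t - j)) := by
        rw [this]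
    _ = _ := by ring

theorem hasSum_exp_desc (a w : ℂ) (i : ℕ) :
    HasSum (fun l : ℕ => a ^ l / (l.factorial : ℂ) * (l.descFactorial i : ℂ) * w ^ (l - i))
      (a ^ i * Complex.exp (a * w)) := by
  have h0 : ∑ l ∈ range i, a ^ l / (l.factorial : ℂ) * (l.descFactorial i : ℂ) * w ^ (l - i) = 0 := by
    apply Finset.sum_eq_zero
    intro l hl
    have : l.descFactorial i = 0 := Nat.descFactorial_eq_zero_iff_lt.mpr (by simpa using hl)
    simp [this]
  rw [← hasSum_nat_add_iff' i, h0, sub_zero]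
  have h1 : (fun l : ℕ => a ^ (l + i) / ((l + i).factorial : ℂ) * ((l + i).descFactorial i : ℂ)
      * w ^ (l + i - i)) = fun l : ℕ => a ^ i * ((a * w) ^ l / (l.factorial : ℂ)) := by
    funext l
    have h2 : (((l + i).factorial : ℕ) : ℂ) = (l.factorial : ℂ) * ((l + i).descFactorial i : ℂ) := by
      have := Nat.factorial_mul_descFactorial (Nat.le_add_left i l)
      rw [Nat.add_sub_cancel] at this
      exact_mod_cast this.symm
    have h3 : ((l + i).descFactorial i : ℂ) ≠ 0 := by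
      have : (l + i).descFactorial i ≠ 0 := by
        rw [Ne, Nat.descFactorial_eq_zero_iff_lt]; omega
      exact_mod_cast this
    have h4 : (l.factorial : ℂ) ≠ 0 := by exact_mod_cast Nat.factorial_ne_zero l
    rw [h2, Nat.add_sub_cancel, mul_pow, pow_add]
    field_simp
  rw [h1]
  apply HasSum.mul_left
  have := NormedSpace.expSeries_div_hasSum_exp (𝔸 := ℂ) (a * w)
  rwa [← Complex.exp_eq_exp_ℂ] at this

/-- coefficient of `w^q` in `w^k e^{a w}` -/
noncomputable def coef (a : ℂ) (k q : ℕ) : ℂ :=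
  if k ≤ q then a ^ (q - k) / ((q - k).factorial : ℂ) else 0

theorem hasSum_lam (a w : ℂ) (k t : ℕ) :
    HasSum (fun q : ℕ => coef a k q * ((q.descFactorial t : ℂ) * w ^ (q - t)))
      (LamC a k t w * Complex.exp (a * w)) := by
  have h0 : ∑ q ∈ range k, coef a k q * ((q.descFactorial t : ℂ) * w ^ (q - t)) = 0 := by
    apply Finset.sum_eq_zero
    intro q hq
    have : ¬ k ≤ q := by simpa using hq
    simp [coef, this]
  rw [← hasSum_nat_add_iff' k, h0, sub_zero]
  have h1 : (fun l : ℕ => coef a k (l + k) * (((l + k).descFactorial t : ℂ) * w ^ (l + k - t)))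
      = fun l : ℕ => ∑ j ∈ range (t + 1), (t.choose j : ℂ) * (k.descFactorial j : ℂ) * w ^ (k - j) *
        (a ^ l / (l.factorial : ℂ) * (l.descFactorial (t - j) : ℂ) * w ^ (l - (t - j))) := by
    funext l
    have e1 : coef a k (l + k) = a ^ l / (l.factorial : ℂ) := by simp [coef]
    rw [e1, Nat.add_comm l k, descFactorial_add]
    push_cast
    rw [Finset.sum_mul, Finset.mul_sum]
    apply Finset.sum_congr rfl
    intro j hj
    have hj' : j ≤ t := by simpa [Nat.lt_succ_iff] using hj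
    by_cases hjk : j ≤ k
    · by_cases hl : t - j ≤ l
      · have : w ^ (k + l - t) = w ^ (k - j) * w ^ (l - (t - j)) := by
          rw [← pow_add]; congr 1; omega
        rw [this]; ring
      · have : l.descFactorial (t - j) = 0 := Nat.descFactorial_eq_zero_iff_lt.mpr (by omega)
        simp [this]
    · have : k.descFactorial j = 0 := Nat.descFactorial_eq_zero_iff_lt.mpr (by omega)
      simp [this]
  rw [h1]
  have h2 : LamC a k t w * Complex.exp (a * w) = ∑ j ∈ range (t + 1),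
      (t.choose j : ℂ) * (k.descFactorial j : ℂ) * w ^ (k - j) * (a ^ (t - j) * Complex.exp (a * w)) := by
    rw [LamC, Finset.sum_mul]
    apply Finset.sum_congr rfl
    intro j _
    ring
  rw [h2]
  apply hasSum_sum
  intro j _
  exact (hasSum_exp_desc a w (t - j)).mul_left _

/-- the bound used for one variable -/
noncomputable def E1 (H : ℕ) (Y : ℝ) : ℝ := (H.factorial : ℝ) * Real.exp (6 * Y)

theorem E1_one_le (H : ℕ) (Y : ℝ) (hY : 0 ≤ Y) : 1 ≤ E1 H Y := by
  unfold E1
  have h1 : (1 : ℝ) ≤ (H.factorial : ℝ) := by exact_mod_cast Nat.one_le_iff_ne_zero.mpr (Nat.factorial_ne_zero H)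
  have h2 : (1 : ℝ) ≤ Real.exp (6 * Y) := Real.one_le_exp (by linarith)
  nlinarith

theorem term_bound (a w : ℂ) (k t H : ℕ) (X W Y : ℝ) (hX : 1 ≤ X) (hW : 1 ≤ W)
    (ha : ‖a‖ ≤ X) (hw : ‖w‖ ≤ W) (hXW : X * W ≤ Y) (hH : k + t ≤ H) (q : ℕ) :
    ‖coef a k q * ((q.descFactorial t : ℂ) * w ^ (q - t))‖ ≤ E1 H Y * (1 / 2) ^ q := by
  have hY : 0 ≤ Y := by nlinarith
  have hE : 0 ≤ E1 H Y := by linarith [E1_one_le H Y hY]
  by_cases hkq : k ≤ q
  swap
  · simp only [coef, hkq, if_false, zero_mul, norm_zero]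
    positivity
  by_cases htq : t ≤ q
  swap
  · have : q.descFactorial t = 0 := Nat.descFactorial_eq_zero_iff_lt.mpr (by omega)
    simp only [this, Nat.cast_zero, zero_mul, mul_zero, norm_zero]
    positivity
  simp only [coef, hkq, if_true]
  rw [norm_mul, norm_mul, norm_div, norm_pow, norm_pow, Complex.norm_natCast, Complex.norm_natCast]
  -- pieces
  have h1 : ‖a‖ ^ (q - k) ≤ X ^ q :=
    (pow_le_pow_left₀ (norm_nonneg _) ha _).trans (pow_le_pow_right₀ hX (by omega))
  have h2 : ‖w‖ ^ (q - t) ≤ W ^ q :=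
    (pow_le_pow_left₀ (norm_nonneg _) hw _).trans (pow_le_pow_right₀ hW (by omega))
  have h3 : ((q.descFactorial t : ℕ) : ℝ) ≤ (q : ℝ) ^ t := by
    exact_mod_cast Nat.descFactorial_le_pow q t
  have hqk : ((q.factorial : ℕ) : ℝ) ≤ ((q - k).factorial : ℝ) * (q : ℝ) ^ k := by
    have e1 := Nat.factorial_mul_descFactorial hkq
    have e2 := Nat.descFactorial_le_pow q k
    have : q.factorial ≤ (q - k).factorial * q ^ k := by
      rw [← e1]; exact Nat.mul_le_mul_left _ e2
    exact_mod_cast this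
  have hfpos : (0 : ℝ) < ((q - k).factorial : ℝ) := by exact_mod_cast Nat.factorial_pos _
  have hqpos : (0 : ℝ) < (q.factorial : ℝ) := by exact_mod_cast Nat.factorial_pos _
  have h4 : 1 / ((q - k).factorial : ℝ) ≤ (q : ℝ) ^ k / (q.factorial : ℝ) := by
    rw [div_le_div_iff₀ hfpos hqpos]
    linarith [hqk]
  have h5 : (q : ℝ) ^ (k + t) ≤ (H.factorial : ℝ) * Real.exp q := by
    have e1 := Real.pow_div_factorial_le_exp (q : ℝ) (Nat.cast_nonneg q) (k + t)
    have hf : (0 : ℝ) < ((k + t).factorial : ℝ) := by exact_mod_cast Nat.factorial_pos _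
    rw [div_le_iff₀ hf] at e1
    have e2 : ((k + t).factorial : ℝ) ≤ (H.factorial : ℝ) := by exact_mod_cast Nat.factorial_le hH
    have e3 : 0 < Real.exp (q : ℝ) := Real.exp_pos _
    nlinarith
  have hXW0 : 0 ≤ X * W := by positivity
  have h6 : (X * W) ^ q / (q.factorial : ℝ) ≤ (1 / 6) ^ q * Real.exp (6 * Y) := by
    have e1 := Real.pow_div_factorial_le_exp (6 * (X * W)) (by positivity) q
    have e2 : Real.exp (6 * (X * W)) ≤ Real.exp (6 * Y) := Real.exp_le_exp.mpr (by linarith)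
    have e3 : (X * W) ^ q / (q.factorial : ℝ) = (1 / 6) ^ q * ((6 * (X * W)) ^ q / (q.factorial : ℝ)) := by
      rw [mul_div_assoc', ← mul_pow]
      congr 2
      ring
    rw [e3]
    exact mul_le_mul_of_nonneg_left (e1.trans e2) (by positivity)
  have h7 : Real.exp (q : ℝ) * (1 / 6) ^ q ≤ (1 / 2) ^ q := by
    have e1 : Real.exp (q : ℝ) = (Real.exp 1) ^ q := by
      rw [← Real.exp_nat_mul]; simp
    rw [e1, ← mul_pow]
    apply pow_le_pow_left₀ (by positivity)
    have := Real.exp_one_lt_d9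
    linarith
  calc ‖a‖ ^ (q - k) / ((q - k).factorial : ℝ) * ((q.descFactorial t : ℝ) * ‖w‖ ^ (q - t))
      = (‖a‖ ^ (q - k) * ‖w‖ ^ (q - t)) * (q.descFactorial t : ℝ) * (1 / ((q - k).factorial : ℝ)) := by
        ring
    _ ≤ (X ^ q * W ^ q) * (q : ℝ) ^ t * ((q : ℝ) ^ k / (q.factorial : ℝ)) := by
        gcongr
    _ = (q : ℝ) ^ (k + t) * ((X * W) ^ q / (q.factorial : ℝ)) := by
        rw [mul_pow, pow_add]; ring
    _ ≤ ((H.factorial : ℝ) * Real.exp q) * ((1 / 6) ^ q * Real.exp (6 * Y)) := by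
        gcongr
    _ = E1 H Y * (Real.exp q * (1 / 6) ^ q) := by unfold E1; ring
    _ ≤ E1 H Y * (1 / 2) ^ q := by gcongr

/-- truncation of the expansion at degree `< Q` -/
noncomputable def trunc (Q : ℕ) (a : ℂ) (k t : ℕ) (w : ℂ) : ℂ :=
  ∑ q : Fin Q, coef a k q * (((q : ℕ).descFactorial t : ℂ) * w ^ ((q : ℕ) - t))

theorem lam_bounds (a w : ℂ) (k t H : ℕ) (X W Y : ℝ) (hX : 1 ≤ X) (hW : 1 ≤ W)
    (ha : ‖a‖ ≤ X) (hw : ‖w‖ ≤ W) (hXW : X * W ≤ Y) (hH : k + t ≤ H) (Q : ℕ) :
    ‖LamC a k t w * Complex.exp (a * w)‖ ≤ 2 * E1 H Y ∧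
    ‖trunc Q a k t w‖ ≤ 2 * E1 H Y ∧
    ‖LamC a k t w * Complex.exp (a * w) - trunc Q a k t w‖ ≤ 2 * E1 H Y * (1 / 2) ^ Q := by
  have hY : 0 ≤ Y := by nlinarith
  have hE : 0 ≤ E1 H Y := by linarith [E1_one_le H Y hY]
  have hs := hasSum_lam a w k t
  have hb := term_bound a w k t H X W Y hX hW ha hw hXW hH
  have hgeo : HasSum (fun q : ℕ => E1 H Y * (1 / 2 : ℝ) ^ q) (2 * E1 H Y) := by
    have := hasSum_geometric_two.mul_left (E1 H Y)
    rwa [mul_comm (E1 H Y) 2] at this
  refine ⟨?_, ?_, ?_⟩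
  · rw [← hs.tsum_eq]
    exact tsum_of_norm_bounded hgeo hb
  · unfold trunc
    refine (norm_sum_le _ _).trans ?_
    rw [Fin.sum_univ_eq_sum_range (fun q => ‖coef a k q * ((q.descFactorial t : ℂ) * w ^ (q - t))‖) Q]
    refine (Finset.sum_le_sum (fun q _ => hb q)).trans ?_
    exact sum_le_hasSum _ (fun q _ => by positivity) hgeo
  · have e1 : trunc Q a k t w = ∑ q ∈ range Q, coef a k q * ((q.descFactorial t : ℂ) * w ^ (q - t)) := by
      unfold trunc
      rw [Fin.sum_univ_eq_sum_range (fun q => coef a k q * ((q.descFactorial t : ℂ) * w ^ (q - t))) Q]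
    have hs' := (hasSum_nat_add_iff' Q).mpr hs
    rw [← e1] at hs'
    rw [← hs'.tsum_eq]
    have hgeo' : HasSum (fun q : ℕ => E1 H Y * (1 / 2 : ℝ) ^ (q + Q)) (2 * E1 H Y * (1 / 2) ^ Q) := by
      have := hgeo.mul_right ((1 / 2 : ℝ) ^ Q)
      refine this.congr_fun ?_ |> fun h => h
      intro q
      simp only [pow_add]
      ring
    exact tsum_of_norm_bounded hgeo' (fun q => hb (q + Q))

end Pool.Agent.H301R2.TR
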