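import Mathlib
import Pool.Agent.H301R2.TR.Expand

set_option autoImplicit false

namespace Pool.Agent.H301R2.TR

open Finset

/-- algebraic version of `LamC (-m)` over a commutative ring -/
def LamR {R : Type*} [CommRing R] (k m t : ℕ) (x : R) : R :=
  ∑ j ∈ range (t + 1), (t.choose j : R) * (-(m : R)) ^ (t - j) * (k.descFactorial j : R) * x ^ (k - j)

theorem LamR_map {R S : Type*} [CommRing R] [CommRing S] (f : R →+* S) (k m t : ℕ) (x : R) :
    f (LamR k m t x) = LamR k m t (f x) := by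
  simp [LamR, map_sum]

theorem LamR_eq (k m t : ℕ) (x : ℂ) : LamR k m t x = LamC (-(m : ℂ)) k t x := rfl

theorem norm_LamR_le (k m t : ℕ) (x : ℂ) (X : ℝ) (hX : 1 ≤ X) (hx : ‖x‖ ≤ X) :
    ‖LamR k m t x‖ ≤ ((m : ℝ) + k) ^ t * X ^ k := by
  unfold LamR
  refine (norm_sum_le _ _).trans ?_
  rw [add_comm (m : ℝ) k, add_pow, Finset.sum_mul]
  apply Finset.sum_le_sum
  intro j hj
  rw [norm_mul, norm_mul, norm_mul, norm_pow, norm_pow, norm_neg, Complex.norm_natCast,
    Complex.norm_natCast, Complex.norm_natCast]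
  have h1 : ((k.descFactorial j : ℕ) : ℝ) ≤ (k : ℝ) ^ j := by
    exact_mod_cast Nat.descFactorial_le_pow k j
  have h2 : ‖x‖ ^ (k - j) ≤ X ^ k :=
    (pow_le_pow_left₀ (norm_nonneg _) hx _).trans (pow_le_pow_right₀ hX (by omega))
  calc (t.choose j : ℝ) * (m : ℝ) ^ (t - j) * (k.descFactorial j : ℝ) * ‖x‖ ^ (k - j)
      ≤ (t.choose j : ℝ) * (m : ℝ) ^ (t - j) * (k : ℝ) ^ j * X ^ k := by gcongr
    _ = _ := by ring

section integral

variable {K : Type*} [Field K]

/-- `d^a * y` is an algebraic integer -/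
def IntD (d : ℕ) (a : ℕ) (y : K) : Prop := IsIntegral ℤ ((d : K) ^ a * y)

theorem isIntegral_natCast' (n : ℕ) : IsIntegral ℤ (n : K) := by
  have := isIntegral_algebraMap (R := ℤ) (A := K) (x := (n : ℤ))
  simpa using this

theorem IntD.mono {d a b : ℕ} {y : K} (h : IntD d a y) (hab : a ≤ b) : IntD d b y := by
  unfold IntD at *
  have : (d : K) ^ b * y = (d : K) ^ (b - a) * ((d : K) ^ a * y) := by
    rw [← mul_assoc, ← pow_add]; congr 2; omega
  rw [this]
  exact ((isIntegral_natCast' d).pow _).mul h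

theorem IntD.mul {d a b : ℕ} {y z : K} (h : IntD d a y) (h' : IntD d b z) :
    IntD d (a + b) (y * z) := by
  unfold IntD at *
  have : (d : K) ^ (a + b) * (y * z) = ((d : K) ^ a * y) * ((d : K) ^ b * z) := by
    rw [pow_add]; ring
  rw [this]
  exact h.mul h'

theorem IntD.pow {d a : ℕ} {y : K} (h : IntD d a y) (n : ℕ) : IntD d (a * n) (y ^ n) := by
  unfold IntD at *
  have : (d : K) ^ (a * n) * y ^ n = ((d : K) ^ a * y) ^ n := by
    rw [mul_pow, ← pow_mul]
  rw [this]
  exact h.pow n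

theorem IntD.of_int {d : ℕ} {y : K} (h : IsIntegral ℤ y) : IntD d 0 y := by
  unfold IntD; simpa using h

theorem IntD.sum {ι : Type*} {d a : ℕ} (s : Finset ι) (f : ι → K) (h : ∀ i ∈ s, IntD d a (f i)) :
    IntD d a (∑ i ∈ s, f i) := by
  unfold IntD at *
  rw [Finset.mul_sum]
  exact IsIntegral.sum _ h

theorem IntD.lamR {d : ℕ} {x : K} (h : IntD d 1 x) (k m t : ℕ) : IntD d k (LamR k m t x) := by
  unfold LamR
  apply IntD.sum
  intro j _
  have h1 : IntD d 0 ((t.choose j : K) * (-(m : K)) ^ (t - j) * (k.descFactorial j : K)) :=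
    IntD.of_int (((isIntegral_natCast' _).mul ((isIntegral_natCast' _).neg.pow _)).mul
      (isIntegral_natCast' _))
  have h2 := h.pow (k - j)
  exact (h1.mul h2).mono (by omega)

/-- a common denominator -/
theorem exists_den [NumberField K] (s : Finset K) :
    ∃ d : ℕ, 0 < d ∧ ∀ x ∈ s, IntD d 1 x := by
  obtain ⟨n, hn, h⟩ := exists_integral_multiples ℤ ℚ s
  refine ⟨n.natAbs, Int.natAbs_pos.mpr hn, fun x hx => ?_⟩
  unfold IntD
  rw [pow_one]
  have h1 : IsIntegral ℤ ((n : K) * x) := by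
    have := h x hx
    rwa [zsmul_eq_mul] at this
  rcases Int.natAbs_eq n with h2 | h2
  · rw [h2] at h1
    simpa using h1
  · rw [h2] at h1
    have := h1.neg
    simpa using this

end integral

end Pool.Agent.H301R2.TR
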