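import Mathlib

set_option autoImplicit false

namespace Pool.Agent.H301R2.TR

open Finset Matrix

/-- If no nonzero linear combination of the rows vanishes, some square minor is nonzero. -/
theorem exists_det_ne_zero {F J C : Type*} [Field F] [Fintype J] [DecidableEq J]
    (M : J → C → F) (h : ∀ p : J → F, (∀ c, ∑ j, p j * M j c = 0) → p = 0) :
    ∃ c : J → C, Matrix.det (fun j i => M j (c i)) ≠ 0 := by
  classical
  let v : C → (J → F) := fun c j => M j c
  have hspan : Submodule.span F (Set.range v) = ⊤ := by
    by_contra hne
    obtain ⟨f, hf0, hf⟩ := Submodule.exists_le_ker_of_lt_top (Submodule.span F (Set.range v))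
      (lt_top_iff_ne_top.mpr hne)
    apply hf0
    have hp : (fun j => f (Pi.single j 1)) = (0 : J → F) := by
      apply h
      intro c
      have h1 : f (v c) = 0 := hf (Submodule.subset_span ⟨c, rfl⟩)
      have h2 : v c = ∑ j, v c j • (Pi.single j 1 : J → F) := by
        ext i
        simp [Finset.sum_apply, Pi.single_apply]
      rw [h2, map_sum] at h1
      rw [← h1]
      apply Finset.sum_congr rfl
      intro j _
      rw [map_smul, smul_eq_mul, mul_comm]
    apply LinearMap.pi_ext'
    intro j
    ext
    simp only [LinearMap.coe_comp, Function.comp_apply, LinearMap.zero_apply]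
    exact congrFun hp j
  obtain ⟨b, hbsub, hbspan, hbli⟩ := exists_linearIndependent F (Set.range v)
  rw [hspan] at hbspan
  have hbspan' : ⊤ ≤ Submodule.span F (Set.range ((↑) : b → (J → F))) := by
    rw [Subtype.range_coe, hbspan]
  let B : Module.Basis b F (J → F) := Module.Basis.mk hbli hbspan'
  have hfinb : Finite b := hbli.finite
  haveI : Fintype b := Fintype.ofFinite b
  have hcard : Fintype.card b = Fintype.card J := by
    rw [← Module.finrank_eq_card_basis B]; simp
  let e : J ≃ b := (Fintype.equivOfCardEq hcard).symm
  have hch : ∀ i : J, ∃ c, v c = (e i : J → F) := fun i => hbsub (e i).2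
  choose c hc using hch
  refine ⟨c, ?_⟩
  have hli : LinearIndependent F (fun i : J => v (c i)) := by
    have : (fun i : J => v (c i)) = (fun x : b => (x : J → F)) ∘ e := by
      funext i; exact hc i
    rw [this]
    exact hbli.comp _ e.injective
  have h1 : IsUnit (Matrix.of (fun i j => M j (c i)) : Matrix J J F) :=
    Matrix.linearIndependent_rows_iff_isUnit.mp hli
  have h2 : (Matrix.of (fun i j => M j (c i)) : Matrix J J F).det ≠ 0 :=
    ((Matrix.isUnit_iff_isUnit_det _).mp h1).ne_zero
  rw [← Matrix.det_transpose] at h2
  exact h2

end Pool.Agent.H301R2.TR
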