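import Mathlib

set_option autoImplicit false

namespace Pool.Agent.H301R2.TR

open Finset Matrix

/-- determinant bound by rows -/
theorem norm_det_le_rows {ι : Type*} [Fintype ι] [DecidableEq ι] (M : Matrix ι ι ℂ)
    (b : ι → ℝ) (h : ∀ i j, ‖M i j‖ ≤ b i) :
    ‖M.det‖ ≤ (Nat.factorial (Fintype.card ι) : ℝ) * ∏ i, b i := by
  rw [← Matrix.det_transpose, Matrix.det_apply]
  refine (norm_sum_le _ _).trans ?_
  have : ∀ σ ∈ (Finset.univ : Finset (Equiv.Perm ι)),
      ‖(Equiv.Perm.sign σ) • ∏ i, Mᵀ (σ i) i‖ ≤ ∏ i, b i := by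
    intro σ _
    have h1 : ‖(Equiv.Perm.sign σ) • ∏ i, Mᵀ (σ i) i‖ = ∏ i, ‖M i (σ i)‖ := by
      rw [Units.smul_def, zsmul_eq_mul, norm_mul, norm_prod]
      have : ‖((Equiv.Perm.sign σ : ℤˣ) : ℂ)‖ = 1 := by
        rcases Int.units_eq_one_or (Equiv.Perm.sign σ) with h | h <;> simp [h]
      simp only [Matrix.transpose_apply]
      rw [this, one_mul]
    rw [h1]
    exact Finset.prod_le_prod (fun i _ => norm_nonneg _) (fun i _ => h i (σ i))
  refine (Finset.sum_le_card_nsmul _ _ _ this).trans ?_
  rw [Finset.card_univ, Fintype.card_perm, nsmul_eq_mul]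

/-- rows in `s` from `A`, others from `R` -/
def pw {ι : Type*} [DecidableEq ι] (s : Finset ι) (A R : Matrix ι ι ℂ) : Matrix ι ι ℂ :=
  fun i j => if i ∈ s then A i j else R i j

theorem det_pw_eq_zero {ι : Type*} [Fintype ι] [DecidableEq ι] {κ : Type*} [Fintype κ]
    (U : Matrix ι κ ℂ) (V : Matrix κ ι ℂ) (R : Matrix ι ι ℂ) (s : Finset ι)
    (hs : Fintype.card κ < s.card) :
    Matrix.det (pw s (U * V) R) = 0 := by
  by_contra hdet
  have hli : LinearIndependent ℂ (fun i => (pw s (U * V) R) i) :=
    Matrix.linearIndependent_rows_of_det_ne_zero hdet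
  have hli' : LinearIndependent ℂ (fun i : s => (pw s (U * V) R) i) :=
    hli.comp _ Subtype.val_injective
  have hmem : ∀ i : s, (pw s (U * V) R) i ∈ Submodule.span ℂ (Set.range (fun k => V k)) := by
    intro i
    have : (pw s (U * V) R) (i : ι) = ∑ k, U i k • V k := by
      ext j
      simp [pw, Matrix.mul_apply, Finset.sum_apply]
    rw [this]
    exact Submodule.sum_mem _ (fun k _ => Submodule.smul_mem _ _ (Submodule.subset_span ⟨k, rfl⟩))
  have hfin : Module.Finite ℂ (Submodule.span ℂ (Set.range (fun k => V k))) :=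
    Module.Finite.span_of_finite ℂ (Set.finite_range _)
  have h1 : s.card ≤ Module.finrank ℂ (Submodule.span ℂ (Set.range (fun k => V k))) := by
    let w : s → Submodule.span ℂ (Set.range (fun k => V k)) := fun i => ⟨_, hmem i⟩
    have hw : LinearIndependent ℂ w := by
      have : LinearIndependent ℂ ((Submodule.span ℂ (Set.range (fun k => V k))).subtype ∘ w) := hli'
      exact LinearIndependent.of_comp _ this
    have := hw.fintype_card_le_finrank
    simpa using this
  have h2 := finrank_range_le_card (R := ℂ) (fun k => V k)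
  unfold Set.finrank at h2
  omega

/-- A matrix that is close to a matrix of small rank has a small determinant. -/
theorem norm_det_low_rank_le {ι : Type*} [Fintype ι] [DecidableEq ι] {κ : Type*} [Fintype κ]
    (U : Matrix ι κ ℂ) (V : Matrix κ ι ℂ) (R : Matrix ι ι ℂ) (E ε : ℝ) (hE : 1 ≤ E)
    (hε0 : 0 ≤ ε) (hε1 : ε ≤ 1) (hA : ∀ i j, ‖(U * V) i j‖ ≤ E)
    (hR : ∀ i j, ‖R i j‖ ≤ E * ε) :
    ‖(U * V + R).det‖ ≤ 2 ^ (Fintype.card ι) * (Nat.factorial (Fintype.card ι) : ℝ)
      * E ^ (Fintype.card ι) * ε ^ (Fintype.card ι - Fintype.card κ) := by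
  have hexp : (U * V + R).det = ∑ s : Finset ι, Matrix.det (pw s (U * V) R) := by
    have := (Matrix.detRowAlternating (R := ℂ) (n := ι)).toMultilinearMap.map_add_univ
      (fun i => (U * V) i) (fun i => R i)
    have e1 : (Matrix.detRowAlternating (R := ℂ) (n := ι)).toMultilinearMap
      ((fun i => (U * V) i) + (fun i => R i)) = (U * V + R).det := rfl
    rw [e1] at this
    rw [this]
    apply Finset.sum_congr rfl
    intro s _
    have e2 : (s.piecewise (fun i => (U * V) i) (fun i => R i)) = pw s (U * V) R := by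
      funext i j
      by_cases hi : i ∈ s
      · rw [Finset.piecewise_eq_of_mem _ _ _ hi]; simp [pw, hi]
      · rw [Finset.piecewise_eq_of_notMem _ _ _ hi]; simp [pw, hi]
    rw [e2]
    rfl
  rw [hexp]
  refine (norm_sum_le _ _).trans ?_
  have hE0 : (0 : ℝ) ≤ E := by linarith
  have key : ∀ s ∈ (Finset.univ : Finset (Finset ι)),
      ‖Matrix.det (pw s (U * V) R)‖ ≤ (Nat.factorial (Fintype.card ι) : ℝ)
        * (E ^ (Fintype.card ι) * ε ^ (Fintype.card ι - Fintype.card κ)) := by
    intro s _
    by_cases hs : Fintype.card κ < s.card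
    · rw [det_pw_eq_zero U V R s hs]
      simp only [norm_zero]
      positivity
    · push Not at hs
      refine (norm_det_le_rows _ (fun i => if i ∈ s then E else E * ε) ?_).trans ?_
      · intro i j
        by_cases hi : i ∈ s
        · simp only [hi, if_true, pw]
          exact hA i j
        · simp only [hi, if_false, pw]
          exact hR i j
      · refine mul_le_mul_of_nonneg_left ?_ (by positivity)
        have h1 : ∏ i, (if i ∈ s then E else E * ε) = E ^ (Fintype.card ι) * ε ^ (Fintype.card ι - s.card) := by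
          have : ∀ i, (if i ∈ s then E else E * ε) = E * (if i ∈ s then 1 else ε) := by
            intro i; split_ifs <;> ring
          simp_rw [this]
          rw [Finset.prod_mul_distrib, Finset.prod_const, Finset.card_univ]
          congr 1
          rw [Finset.prod_ite]
          simp only [Finset.prod_const_one, one_mul, Finset.prod_const]
          congr 1
          rw [Finset.filter_not, Finset.card_sdiff_of_subset (Finset.filter_subset _ _)]
          simp [Finset.card_univ]
        rw [h1]
        refine mul_le_mul_of_nonneg_left ?_ (by positivity)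
        exact pow_le_pow_of_le_one hε0 hε1 (by omega)
  refine (Finset.sum_le_card_nsmul _ _ _ key).trans ?_
  rw [Finset.card_univ, Fintype.card_finset, nsmul_eq_mul]
  push_cast
  apply le_of_eq
  ring

end Pool.Agent.H301R2.TR
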