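import Mathlib
import Pool.Agent.H301R2.TR.DetBound

set_option autoImplicit false

namespace Pool.Agent.H301R2.TR

open Finset Matrix

/-- Liouville inequality in a number field: product formula form. -/
theorem one_le_prod_embeddings {K : Type*} [Field K] [NumberField K] (y : K)
    (hint : IsIntegral ℤ y) (hy : y ≠ 0) : 1 ≤ ∏ σ : K →ₐ[ℚ] ℂ, ‖σ y‖ := by
  have h1 : algebraMap ℚ ℂ (Algebra.norm ℚ y) = ∏ σ : K →ₐ[ℚ] ℂ, σ y :=
    Algebra.norm_eq_prod_embeddings ℚ ℂ y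
  have h2 : IsIntegral ℤ (Algebra.norm ℚ y) := Algebra.isIntegral_norm ℚ hint
  obtain ⟨n, hn⟩ := IsIntegrallyClosed.isIntegral_iff.mp h2
  have h3 : Algebra.norm ℚ y ≠ 0 := Algebra.norm_ne_zero_iff.mpr hy
  have hn0 : n ≠ 0 := by
    rintro rfl
    apply h3
    rw [← hn]; simp
  have h4 : ∏ σ : K →ₐ[ℚ] ℂ, ‖σ y‖ = ‖(n : ℂ)‖ := by
    rw [← norm_prod, ← h1, ← hn]
    simp
  rw [h4, Complex.norm_intCast]
  exact_mod_cast Int.one_le_abs hn0

/-- Lower bound for determinants with entries in a number field. -/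
theorem det_lower {K : Type*} [Field K] [NumberField K] (φ : K →ₐ[ℚ] ℂ)
    {J : Type*} [Fintype J] [DecidableEq J] (e : Matrix J J K) (d h : ℕ) (hd : 0 < d) (B : ℝ)
    (hB : 1 ≤ B) (hint : ∀ j i, IsIntegral ℤ ((d : K) ^ h * e j i))
    (hbd : ∀ σ : K →ₐ[ℚ] ℂ, ∀ j i, ‖σ (e j i)‖ ≤ B) (hne : e.det ≠ 0) :
    1 ≤ ‖φ e.det‖ * ((d : ℝ) ^ h) ^ (Fintype.card J * Module.finrank ℚ K)
      * ((Nat.factorial (Fintype.card J) : ℝ) * B ^ (Fintype.card J)) ^ (Module.finrank ℚ K) := by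
  classical
  set N := Fintype.card J with hN
  set D := Module.finrank ℚ K with hD
  have hdet : IsIntegral ℤ (((d : K) ^ h) ^ N * e.det) := by
    rw [hN, ← Matrix.det_smul]
    rw [Matrix.det_apply]
    apply IsIntegral.sum
    intro σ _
    have : IsIntegral ℤ (∏ i, ((d : K) ^ h • e) (σ i) i) := by
      apply IsIntegral.prod
      intro i _
      simpa [Matrix.smul_apply] using hint (σ i) i
    rcases Int.units_eq_one_or (Equiv.Perm.sign σ) with hs | hs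
    · rw [hs, one_smul]; exact this
    · rw [hs]
      have e1 : ((-1 : ℤˣ) • ∏ i, ((d : K) ^ h • e) (σ i) i) = - ∏ i, ((d : K) ^ h • e) (σ i) i := by
        rw [Units.smul_def]; simp
      rw [e1]
      exact this.neg
  have hd0 : (d : K) ≠ 0 := by exact_mod_cast hd.ne'
  have hy : ((d : K) ^ h) ^ N * e.det ≠ 0 := mul_ne_zero (pow_ne_zero _ (pow_ne_zero _ hd0)) hne
  have h1 := one_le_prod_embeddings _ hdet hy
  have h2 : ∀ σ : K →ₐ[ℚ] ℂ, ‖σ (((d : K) ^ h) ^ N * e.det)‖ = ((d : ℝ) ^ h) ^ N * ‖σ e.det‖ := by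
    intro σ
    rw [map_mul, norm_mul, map_pow, map_pow, map_natCast, norm_pow, norm_pow, Complex.norm_natCast]
  simp_rw [h2] at h1
  rw [Finset.prod_mul_distrib, Finset.prod_const, Finset.card_univ, AlgHom.card ℚ K ℂ, ← hD,
    ← pow_mul] at h1
  have hdet2 : ∀ σ : K →ₐ[ℚ] ℂ, ‖σ e.det‖ ≤ (Nat.factorial N : ℝ) * B ^ N := by
    intro σ
    have e1 : σ e.det = Matrix.det (fun j i => σ (e j i)) := by
      have := RingHom.map_det (σ : K →+* ℂ) e
      exact this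
    rw [e1]
    have := norm_det_le_rows (fun j i => σ (e j i)) (fun _ => B) (fun j i => hbd σ j i)
    rwa [Finset.prod_const, Finset.card_univ, ← hN] at this
  have hNB : (1 : ℝ) ≤ (Nat.factorial N : ℝ) * B ^ N := by
    have e1 : (1 : ℝ) ≤ (Nat.factorial N : ℝ) := by exact_mod_cast Nat.one_le_iff_ne_zero.mpr (Nat.factorial_ne_zero N)
    have e2 : (1 : ℝ) ≤ B ^ N := one_le_pow₀ hB
    nlinarith
  have h3 : ∏ σ : K →ₐ[ℚ] ℂ, ‖σ e.det‖ ≤ ‖φ e.det‖ * ((Nat.factorial N : ℝ) * B ^ N) ^ D := by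
    rw [← Finset.mul_prod_erase _ _ (Finset.mem_univ φ)]
    refine mul_le_mul_of_nonneg_left ?_ (norm_nonneg _)
    refine (Finset.prod_le_prod (fun _ _ => norm_nonneg _) (fun σ _ => hdet2 σ)).trans ?_
    rw [Finset.prod_const]
    apply pow_le_pow_right₀ hNB
    rw [Finset.card_erase_of_mem (Finset.mem_univ _), Finset.card_univ, AlgHom.card ℚ K ℂ]
    omega
  calc (1 : ℝ) ≤ ((d : ℝ) ^ h) ^ (N * D) * ∏ σ : K →ₐ[ℚ] ℂ, ‖σ e.det‖ := h1
    _ ≤ ((d : ℝ) ^ h) ^ (N * D) * (‖φ e.det‖ * ((Nat.factorial N : ℝ) * B ^ N) ^ D) := by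
        gcongr
    _ = _ := by ring

end Pool.Agent.H301R2.TR
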