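import Mathlib
import Pool.Agent.H301R2.TR.DetBound
import Pool.Agent.H301R2.TR.Expand

set_option autoImplicit false

namespace Pool.Agent.H301R2.TR

open Finset Matrix

/-- product of approximations -/
theorem norm_prod_sub_prod_le {L : Type*} (s : Finset L) (F A : L → ℂ) (B δ : ℝ)
    (hB : 1 ≤ B) (hδ : 0 ≤ δ) (hF : ∀ l ∈ s, ‖F l‖ ≤ B) (hA : ∀ l ∈ s, ‖A l‖ ≤ B)
    (hd : ∀ l ∈ s, ‖F l - A l‖ ≤ B * δ) :
    ‖∏ l ∈ s, F l - ∏ l ∈ s, A l‖ ≤ s.card * B ^ s.card * δ := by
  classical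
  induction s using Finset.induction_on with
  | empty => simp
  | insert x s hx ih =>
    rw [Finset.prod_insert hx, Finset.prod_insert hx, Finset.card_insert_of_notMem hx]
    have ih' := ih (fun l hl => hF l (Finset.mem_insert_of_mem hl))
      (fun l hl => hA l (Finset.mem_insert_of_mem hl)) (fun l hl => hd l (Finset.mem_insert_of_mem hl))
    have hFx := hF x (Finset.mem_insert_self _ _)
    have hAx := hA x (Finset.mem_insert_self _ _)
    have hdx := hd x (Finset.mem_insert_self _ _)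
    have hPA : ‖∏ l ∈ s, A l‖ ≤ B ^ s.card := by
      rw [norm_prod]
      refine (Finset.prod_le_prod (fun _ _ => norm_nonneg _)
        (fun l hl => hA l (Finset.mem_insert_of_mem hl))).trans ?_
      rw [Finset.prod_const]
    have e : F x * ∏ l ∈ s, F l - A x * ∏ l ∈ s, A l
        = F x * (∏ l ∈ s, F l - ∏ l ∈ s, A l) + (F x - A x) * ∏ l ∈ s, A l := by ring
    rw [e]
    refine (norm_add_le _ _).trans ?_
    rw [norm_mul, norm_mul]
    have hB0 : 0 ≤ B := by linarith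
    calc ‖F x‖ * ‖∏ l ∈ s, F l - ∏ l ∈ s, A l‖ + ‖F x - A x‖ * ‖∏ l ∈ s, A l‖
        ≤ B * (s.card * B ^ s.card * δ) + (B * δ) * B ^ s.card := by gcongr
      _ = ((s.card + 1 : ℕ) : ℝ) * B ^ (s.card + 1) * δ := by
        push_cast; ring

/-- Upper bound for interpolation determinants. -/
theorem det_upper {L J : Type*} [Fintype L] [Fintype J] [DecidableEq J] [DecidableEq L]
    (k : J → L → ℕ) (a : J → L → ℂ) (t : J → L → ℕ) (w : J → L → ℂ)
    (H Q : ℕ) (X W : L → ℝ) (Y : ℝ)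
    (hX : ∀ l, 1 ≤ X l) (hW : ∀ l, 1 ≤ W l) (hXW : ∀ l, X l * W l ≤ Y)
    (ha : ∀ j l, ‖a j l‖ ≤ X l) (hw : ∀ i l, ‖w i l‖ ≤ W l)
    (hH : ∀ j i l, k j l + t i l ≤ H) (hY : 0 ≤ Y) :
    ‖Matrix.det (fun j i : J => ∏ l, (LamC (a j l) (k j l) (t i l) (w i l)
        * Complex.exp (a j l * w i l)))‖ ≤
      2 ^ (Fintype.card J) * (Nat.factorial (Fintype.card J) : ℝ)
      * ((Fintype.card L + 1) * (2 * E1 H Y) ^ (Fintype.card L)) ^ (Fintype.card J)
      * ((1 / 2 : ℝ) ^ Q) ^ (Fintype.card J - Q ^ (Fintype.card L)) := by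
  -- the low rank part
  let U : Matrix J (L → Fin Q) ℂ := fun j κ => ∏ l, coef (a j l) (k j l) (κ l)
  let V : Matrix (L → Fin Q) J ℂ := fun κ i =>
    ∏ l, ((((κ l : ℕ)).descFactorial (t i l) : ℂ) * w i l ^ ((κ l : ℕ) - t i l))
  let F : Matrix J J ℂ := fun j i => ∏ l, (LamC (a j l) (k j l) (t i l) (w i l)
        * Complex.exp (a j l * w i l))
  have hUV : ∀ j i, (U * V) j i = ∏ l, trunc Q (a j l) (k j l) (t i l) (w i l) := by
    intro j i
    simp only [Matrix.mul_apply, U, V, trunc]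
    rw [Finset.prod_univ_sum, Fintype.piFinset_univ]
    apply Finset.sum_congr rfl
    intro κ _
    rw [← Finset.prod_mul_distrib]
  have hE1 : 1 ≤ E1 H Y := E1_one_le H Y hY
  have hB : (1 : ℝ) ≤ 2 * E1 H Y := by linarith
  have hB0 : (0 : ℝ) ≤ 2 * E1 H Y := by linarith
  have hlb := fun j i l => lam_bounds (a j l) (w i l) (k j l) (t i l) H (X l) (W l) Y (hX l) (hW l)
    (ha j l) (hw i l) (hXW l) (hH j i l) Q
  have hpow : (1 : ℝ) ≤ (2 * E1 H Y) ^ (Fintype.card L) := one_le_pow₀ hB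
  have hcardL : (0 : ℝ) ≤ (Fintype.card L : ℝ) := Nat.cast_nonneg _
  have hmain := norm_det_low_rank_le U V (F - U * V)
    ((Fintype.card L + 1) * (2 * E1 H Y) ^ (Fintype.card L)) ((1 / 2 : ℝ) ^ Q)
    (by nlinarith) (by positivity) (pow_le_one₀ (by norm_num) (by norm_num)) ?_ ?_
  · have e : U * V + (F - U * V) = F := by abel
    rw [e] at hmain
    have e2 : Fintype.card (L → Fin Q) = Q ^ Fintype.card L := by simp
    rw [e2] at hmain
    exact hmain
  · intro j i
    rw [hUV, norm_prod]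
    calc ∏ l, ‖trunc Q (a j l) (k j l) (t i l) (w i l)‖ ≤ ∏ _l : L, (2 * E1 H Y) :=
          Finset.prod_le_prod (fun _ _ => norm_nonneg _) (fun l _ => (hlb j i l).2.1)
      _ = (2 * E1 H Y) ^ (Fintype.card L) := by rw [Finset.prod_const, Finset.card_univ]
      _ ≤ _ := by nlinarith
  · intro j i
    have e1 : (F - U * V) j i = (∏ l, (LamC (a j l) (k j l) (t i l) (w i l)
        * Complex.exp (a j l * w i l))) - ∏ l, trunc Q (a j l) (k j l) (t i l) (w i l) := by
      rw [← hUV]; rfl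
    rw [e1]
    have := norm_prod_sub_prod_le (Finset.univ : Finset L)
      (fun l => LamC (a j l) (k j l) (t i l) (w i l) * Complex.exp (a j l * w i l))
      (fun l => trunc Q (a j l) (k j l) (t i l) (w i l)) (2 * E1 H Y) ((1 / 2) ^ Q) hB (by positivity)
      (fun l _ => (hlb j i l).1) (fun l _ => (hlb j i l).2.1) (fun l _ => (hlb j i l).2.2)
    rw [Finset.card_univ] at this
    refine this.trans ?_
    have h1 : (0 : ℝ) ≤ (1 / 2 : ℝ) ^ Q := by positivity
    have h2 : (0 : ℝ) ≤ (2 * E1 H Y) ^ (Fintype.card L) := by positivity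
    gcongr
    linarith

end Pool.Agent.H301R2.TR
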