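import Mathlib
import Pool.Agent.H301R2.TR.Vanish
import Pool.Agent.H301R2.TR.Select
import Pool.Agent.H301R2.TR.Growth
import Pool.Agent.H301R2.TR.LamR

set_option autoImplicit false

namespace Pool.Agent.H301R2.TR

open Finset

/-- one-variable factor over a commutative ring -/
def LamF {R : Type*} [CommRing R] (lam : R) (k t : ℕ) (x : R) : R :=
  ∑ j ∈ range (t + 1), (t.choose j : R) * lam ^ (t - j) * (k.descFactorial j : R) * x ^ (k - j)

theorem LamF_map {R S : Type*} [CommRing R] [CommRing S] (f : R →+* S) (lam : R) (k t : ℕ) (x : R) :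
    f (LamF lam k t x) = LamF (f lam) k t (f x) := by
  simp [LamF, map_sum]

theorem LamF_eq (lam : ℂ) (k t : ℕ) (x : ℂ) : LamF lam k t x = LamC lam k t x := rfl

theorem LamF_zero {R : Type*} [CommRing R] (lam : R) (t : ℕ) (x : R) :
    LamF lam 0 t x = lam ^ t := by
  unfold LamF
  rw [Finset.sum_eq_single 0]
  · simp
  · intro j _ hj
    have : Nat.descFactorial 0 j = 0 := Nat.descFactorial_eq_zero_iff_lt.mpr (by omega)
    simp [this]
  · intro h; exact absurd (Finset.mem_range.mpr (Nat.succ_pos t)) h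

theorem norm_LamF_le (lam : ℂ) (k t : ℕ) (x : ℂ) (A X : ℝ) (hA : ‖lam‖ ≤ A) (hX : 1 ≤ X)
    (hx : ‖x‖ ≤ X) : ‖LamF lam k t x‖ ≤ (A + k) ^ t * X ^ k := by
  have hA0 : 0 ≤ A := (norm_nonneg _).trans hA
  unfold LamF
  refine (norm_sum_le _ _).trans ?_
  rw [add_comm A (k : ℝ), add_pow, Finset.sum_mul]
  apply Finset.sum_le_sum
  intro j hj
  rw [norm_mul, norm_mul, norm_mul, norm_pow, norm_pow, Complex.norm_natCast, Complex.norm_natCast]
  have h1 : ((k.descFactorial j : ℕ) : ℝ) ≤ (k : ℝ) ^ j := by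
    exact_mod_cast Nat.descFactorial_le_pow k j
  have h2 : ‖x‖ ^ (k - j) ≤ X ^ k :=
    (pow_le_pow_left₀ (norm_nonneg _) hx _).trans (pow_le_pow_right₀ hX (by omega))
  calc (t.choose j : ℝ) * ‖lam‖ ^ (t - j) * (k.descFactorial j : ℝ) * ‖x‖ ^ (k - j)
      ≤ (t.choose j : ℝ) * A ^ (t - j) * (k : ℝ) ^ j * X ^ k := by gcongr
    _ = _ := by ring

theorem IntD.lamF {K : Type*} [Field K] {d a b : ℕ} {lam x : K} (hl : IntD d a lam)
    (h : IntD d b x) (k t : ℕ) : IntD d (a * t + b * k) (LamF lam k t x) := by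
  unfold LamF
  apply IntD.sum
  intro j hj
  have h1 : IntD d 0 ((t.choose j : K)) := IntD.of_int (isIntegral_natCast' _)
  have h3 : IntD d 0 ((k.descFactorial j : K)) := IntD.of_int (isIntegral_natCast' _)
  have h2 := h.pow (k - j)
  have h4 := hl.pow (t - j)
  have h5 := ((h1.mul h4).mul h3).mul h2
  refine h5.mono ?_
  have e1 : a * (t - j) ≤ a * t := Nat.mul_le_mul_left _ (Nat.sub_le _ _)
  have e2 : b * (k - j) ≤ b * k := Nat.mul_le_mul_left _ (Nat.sub_le _ _)
  omega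

/-- the general entry of the interpolation matrix -/
def entG {R : Type*} [CommRing R] {w b l : ℕ} (γ : Fin w → Fin b → R) (α : Fin w → Fin l → R)
    (χ : Fin b → Fin l → R) (k : Fin w → ℕ) (m : Fin b → ℕ) (t : Fin w → ℕ) (s : Fin l → ℕ) : R :=
  (∏ i, LamF (∑ j, γ i j * (m j : R)) (k i) (t i) (∑ p, α i p * (s p : R))) *
    ∏ j, (∏ p, χ j p ^ s p) ^ m j

theorem entG_map {R S : Type*} [CommRing R] [CommRing S] (f : R →+* S) {w b l : ℕ}
    (γ : Fin w → Fin b → R) (α : Fin w → Fin l → R)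
    (χ : Fin b → Fin l → R) (k : Fin w → ℕ) (m : Fin b → ℕ) (t : Fin w → ℕ) (s : Fin l → ℕ) :
    f (entG γ α χ k m t s) = entG (fun i j => f (γ i j)) (fun i p => f (α i p))
      (fun j p => f (χ j p)) k m t s := by
  simp [entG, map_prod, map_sum, LamF_map]

theorem IntD.prod {K : Type*} [Field K] {ι : Type*} {d a : ℕ} (s : Finset ι) (f : ι → K)
    (h : ∀ i ∈ s, IntD d a (f i)) : IntD d (s.card * a) (∏ i ∈ s, f i) := by
  classical
  induction s using Finset.induction_on with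
  | empty => simpa using IntD.of_int (d := d) (K := K) isIntegral_one
  | insert i s hi ih =>
    rw [Finset.prod_insert hi, Finset.card_insert_of_notMem hi]
    have h1 := (h i (Finset.mem_insert_self i s)).mul
      (ih (fun j hj => h j (Finset.mem_insert_of_mem hj)))
    exact h1.mono (by ring_nf; omega)

theorem entG_int {K : Type*} [Field K] {d : ℕ} {w b l : ℕ}
    {γ : Fin w → Fin b → K} {α : Fin w → Fin l → K} {χ : Fin b → Fin l → K}
    (hγ : ∀ i j, IntD d 1 (γ i j)) (hα : ∀ i p, IntD d 1 (α i p)) (hχ : ∀ j p, IntD d 1 (χ j p))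
    (K0 M T S : ℕ) {k : Fin w → ℕ} {m : Fin b → ℕ} {t : Fin w → ℕ} {s : Fin l → ℕ}
    (hk : ∀ i, k i ≤ K0) (hm : ∀ j, m j ≤ M) (ht : ∀ i, t i ≤ T) (hs : ∀ p, s p ≤ S) :
    IntD d (w * (T + K0) + b * (l * (S * M))) (entG γ α χ k m t s) := by
  have hnat : ∀ n : ℕ, IntD d 0 (n : K) := fun n => IntD.of_int (isIntegral_natCast' n)
  have h1 : IntD d (w * (T + K0)) (∏ i, LamF (∑ j, γ i j * (m j : K)) (k i) (t i)
      (∑ p, α i p * (s p : K))) := by
    have := IntD.prod (d := d) (a := T + K0) Finset.univ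
      (fun i => LamF (∑ j, γ i j * (m j : K)) (k i) (t i) (∑ p, α i p * (s p : K))) ?_
    · simpa using this
    · intro i _
      have g1 : IntD d 1 (∑ j, γ i j * (m j : K)) :=
        IntD.sum _ _ (fun j _ => (hγ i j).mul (hnat (m j)))
      have g2 : IntD d 1 (∑ p, α i p * (s p : K)) :=
        IntD.sum _ _ (fun p _ => (hα i p).mul (hnat (s p)))
      refine (g1.lamF g2 (k i) (t i)).mono ?_
      have := hk i; have := ht i
      omega
  have h2 : IntD d (b * (l * (S * M))) (∏ j, (∏ p, χ j p ^ s p) ^ m j) := by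
    have := IntD.prod (d := d) (a := l * (S * M)) Finset.univ
      (fun j => (∏ p, χ j p ^ s p) ^ m j) ?_
    · simpa using this
    · intro j _
      have g1 : IntD d (l * S) (∏ p, χ j p ^ s p) := by
        have := IntD.prod (d := d) (a := S) Finset.univ (fun p => χ j p ^ s p) (fun p _ =>
          ((hχ j p).pow (s p)).mono (by have := hs p; omega))
        simpa using this
      refine (g1.pow (m j)).mono ?_
      calc l * S * m j ≤ l * S * M := Nat.mul_le_mul_left _ (hm j)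
        _ = _ := by ring
  exact h1.mul h2

theorem norm_natsum_le {n : ℕ} (R0 : ℝ) (N : ℕ) (f : Fin n → ℂ) (m : Fin n → ℕ)
    (hf : ∀ i, ‖f i‖ ≤ R0) (hm : ∀ i, m i ≤ N) :
    ‖∑ i, f i * (m i : ℂ)‖ ≤ n * R0 * N := by
  refine (norm_sum_le _ _).trans ?_
  have : ∀ i ∈ (Finset.univ : Finset (Fin n)), ‖f i * (m i : ℂ)‖ ≤ R0 * N := by
    intro i _
    rw [norm_mul, Complex.norm_natCast]
    have h1 : (m i : ℝ) ≤ N := by exact_mod_cast hm i
    have h2 : 0 ≤ R0 := (norm_nonneg _).trans (hf i)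
    exact mul_le_mul (hf i) h1 (Nat.cast_nonneg _) h2
  refine (Finset.sum_le_card_nsmul _ _ _ this).trans ?_
  simp only [Finset.card_univ, Fintype.card_fin, nsmul_eq_mul]
  apply le_of_eq; ring

theorem entG_norm {w b l : ℕ}
    {γ : Fin w → Fin b → ℂ} {α : Fin w → Fin l → ℂ} {χ : Fin b → Fin l → ℂ} {R0 : ℝ}
    (hR0 : 1 ≤ R0) (hγ : ∀ i j, ‖γ i j‖ ≤ R0) (hα : ∀ i p, ‖α i p‖ ≤ R0)
    (hχ : ∀ j p, ‖χ j p‖ ≤ R0)
    (K0 M T S : ℕ) {k : Fin w → ℕ} {m : Fin b → ℕ} {t : Fin w → ℕ} {s : Fin l → ℕ}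
    (hk : ∀ i, k i ≤ K0) (hm : ∀ j, m j ≤ M) (ht : ∀ i, t i ≤ T) (hs : ∀ p, s p ≤ S) :
    ‖entG γ α χ k m t s‖ ≤ ((1 + b * R0 * M + K0) ^ T * (1 + l * R0 * S) ^ K0) ^ w *
      (R0 ^ (l * (S * M))) ^ b := by
  unfold entG
  rw [norm_mul]
  have hR0' : 0 ≤ R0 := by linarith
  have h1 : ‖∏ i, LamF (∑ j, γ i j * (m j : ℂ)) (k i) (t i) (∑ p, α i p * (s p : ℂ))‖ ≤
      ((1 + b * R0 * M + K0) ^ T * (1 + l * R0 * S) ^ K0) ^ w := by
    rw [norm_prod]
    have : ∀ i ∈ (Finset.univ : Finset (Fin w)),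
        ‖LamF (∑ j, γ i j * (m j : ℂ)) (k i) (t i) (∑ p, α i p * (s p : ℂ))‖ ≤
        ((1 + b * R0 * M + K0) ^ T * (1 + l * R0 * S) ^ K0) := by
      intro i _
      have g1 := norm_natsum_le R0 M (γ i) m (hγ i) hm
      have g2 := norm_natsum_le R0 S (α i) s (hα i) hs
      have hX : (1 : ℝ) ≤ 1 + l * R0 * S := by
        have : 0 ≤ l * R0 * (S : ℝ) := by positivity
        linarith
      refine (norm_LamF_le _ (k i) (t i) _ (b * R0 * M) (1 + l * R0 * S) g1 hX (by linarith)).trans ?_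
      have hki : (k i : ℝ) ≤ K0 := by exact_mod_cast hk i
      have hb : 0 ≤ b * R0 * (M : ℝ) := by positivity
      have a1 : (b * R0 * M + k i) ^ (t i) ≤ (1 + b * R0 * M + K0) ^ T := by
        calc (b * R0 * M + k i : ℝ) ^ (t i) ≤ (1 + b * R0 * M + K0) ^ (t i) := by
              apply pow_le_pow_left₀ (by positivity)
              linarith
          _ ≤ _ := pow_le_pow_right₀ (by have : (0 : ℝ) ≤ K0 := Nat.cast_nonneg _
                                         linarith) (ht i)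
      have a2 : (1 + l * R0 * (S : ℝ)) ^ (k i) ≤ (1 + l * R0 * S) ^ K0 :=
        pow_le_pow_right₀ hX (hk i)
      gcongr
    refine (Finset.prod_le_prod (fun i _ => norm_nonneg _) this).trans ?_
    simp
  have h2 : ‖∏ j, (∏ p, χ j p ^ s p) ^ m j‖ ≤ (R0 ^ (l * (S * M))) ^ b := by
    rw [norm_prod]
    have : ∀ j ∈ (Finset.univ : Finset (Fin b)), ‖(∏ p, χ j p ^ s p) ^ m j‖ ≤
        (R0 ^ (l * (S * M))) := by
      intro j _
      rw [norm_pow, norm_prod]
      have g : ∏ p, ‖χ j p ^ s p‖ ≤ R0 ^ (l * S) := by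
        have g1 : ∀ p ∈ (Finset.univ : Finset (Fin l)), ‖χ j p ^ s p‖ ≤ R0 ^ S := by
          intro p _
          rw [norm_pow]
          exact (pow_le_pow_left₀ (norm_nonneg _) (hχ j p) _).trans (pow_le_pow_right₀ hR0 (hs p))
        refine (Finset.prod_le_prod (fun i _ => norm_nonneg _) g1).trans ?_
        simp only [Finset.prod_const, Finset.card_univ, Fintype.card_fin]
        rw [← pow_mul]
        apply le_of_eq; congr 1; ring
      calc (∏ p, ‖χ j p ^ s p‖) ^ m j ≤ (R0 ^ (l * S)) ^ m j :=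
            pow_le_pow_left₀ (Finset.prod_nonneg fun _ _ => norm_nonneg _) g _
        _ = R0 ^ (l * S * m j) := by rw [← pow_mul]
        _ ≤ _ := by
          apply pow_le_pow_right₀ hR0
          calc l * S * m j ≤ l * S * M := Nat.mul_le_mul_left _ (hm j)
            _ = _ := by ring
    refine (Finset.prod_le_prod (fun i _ => norm_nonneg _) this).trans ?_
    simp
  have h3 : (0 : ℝ) ≤ ((1 + b * R0 * M + K0) ^ T * (1 + l * R0 * S) ^ K0) ^ w := by positivity
  exact mul_le_mul h1 h2 (norm_nonneg _) h3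

end Pool.Agent.H301R2.TR
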