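import Mathlib
import Pool.Agent.H301R2.TR.GenEntry

set_option autoImplicit false

namespace Pool.Agent.H301R2.TR

open Finset Matrix

/-- index set of monomials -/
abbrev JG {w : ℕ} (Kc : Fin w → ℕ) (b M : ℕ) := (∀ i : Fin w, Fin (Kc i + 1)) × (Fin b → Fin (M + 1))

/-- index set of conditions -/
def CG (w l T S : ℕ) := {c : (Fin w → ℕ) × (Fin l → ℕ) // (∀ i, c.1 i ≤ T) ∧ ∀ p, c.2 p ≤ S}

theorem card_JG {w : ℕ} (Kc : Fin w → ℕ) (b M : ℕ) :
    Fintype.card (JG Kc b M) = (∏ i, (Kc i + 1)) * (M + 1) ^ b := by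
  simp [JG, Fintype.card_prod, Fintype.card_pi]

theorem sum3 {r b l : ℕ} (x : Fin r → Fin b → ℂ) (y : Fin r → Fin l → ℂ) (m : Fin b → ℕ)
    (s : Fin l → ℕ) : ∑ j, ∑ p, ∑ i, (m j : ℂ) * ((s p : ℂ) * (x i j * y i p)) =
      ∑ i, (∑ j, x i j * (m j : ℂ)) * (∑ p, y i p * (s p : ℂ)) := by
  have h1 : ∀ j, ∑ p, ∑ i, (m j : ℂ) * ((s p : ℂ) * (x i j * y i p)) =
      ∑ i, ∑ p, (m j : ℂ) * ((s p : ℂ) * (x i j * y i p)) := fun j => Finset.sum_comm
  simp only [h1]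
  rw [Finset.sum_comm]
  apply Finset.sum_congr rfl
  intro i _
  rw [Finset.sum_mul_sum]
  apply Finset.sum_congr rfl; intro j _
  apply Finset.sum_congr rfl; intro p _
  ring

theorem entG_exp {w b l r : ℕ} (γ : Fin w → Fin b → ℂ) (α : Fin w → Fin l → ℂ)
    (χ : Fin b → Fin l → ℂ) (x : Fin r → Fin b → ℂ) (y : Fin r → Fin l → ℂ) (ω : Fin w → Fin l → ℂ)
    (hχ : ∀ j p, χ j p = Complex.exp (∑ ρ, x ρ j * y ρ p + ∑ i, γ i j * ω i p))
    (k : Fin w → ℕ) (m : Fin b → ℕ) (t : Fin w → ℕ) (s : Fin l → ℕ)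
    (hα : ∀ i, k i = 0 ∨ ∀ p, α i p = ω i p) :
    entG γ α χ k m t s =
      ∏ i : Fin r ⊕ Fin w,
        (LamC (Sum.elim (fun ρ => ∑ j, x ρ j * (m j : ℂ)) (fun i => ∑ j, γ i j * (m j : ℂ)) i)
          (Sum.elim (fun _ => 0) k i) (Sum.elim (fun _ => 0) t i)
          (Sum.elim (fun ρ => ∑ p, y ρ p * (s p : ℂ)) (fun i => ∑ p, ω i p * (s p : ℂ)) i) *
        Complex.exp (Sum.elim (fun ρ => ∑ j, x ρ j * (m j : ℂ)) (fun i => ∑ j, γ i j * (m j : ℂ)) i *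
          Sum.elim (fun ρ => ∑ p, y ρ p * (s p : ℂ)) (fun i => ∑ p, ω i p * (s p : ℂ)) i)) := by
  rw [Fintype.prod_sum_type]
  simp only [Sum.elim_inl, Sum.elim_inr]
  have h0 : ∀ (a z : ℂ), LamC a 0 0 z = 1 := by intro a z; simp [LamC]
  simp only [h0, one_mul]
  rw [Finset.prod_mul_distrib]
  unfold entG
  have h1 : ∏ i, LamF (∑ j, γ i j * (m j : ℂ)) (k i) (t i) (∑ p, α i p * (s p : ℂ)) =
      ∏ i, LamC (∑ j, γ i j * (m j : ℂ)) (k i) (t i) (∑ p, ω i p * (s p : ℂ)) := by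
    apply Finset.prod_congr rfl
    intro i _
    rw [← LamF_eq]
    rcases hα i with h | h
    · rw [h, LamF_zero, LamF_zero]
    · simp only [h]
  have h2 : ∏ j, (∏ p, χ j p ^ s p) ^ m j =
      (∏ ρ, Complex.exp ((∑ j, x ρ j * (m j : ℂ)) * (∑ p, y ρ p * (s p : ℂ)))) *
      ∏ i, Complex.exp ((∑ j, γ i j * (m j : ℂ)) * (∑ p, ω i p * (s p : ℂ))) := by
    rw [← Complex.exp_sum, ← Complex.exp_sum, ← Complex.exp_add]
    simp only [hχ, ← Complex.exp_nat_mul, ← Complex.exp_sum]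
    congr 1
    rw [← sum3 x y m s, ← sum3 γ ω m s]
    simp only [Finset.mul_sum, mul_add, Finset.sum_add_distrib]
  rw [h1, h2]
  ring

/-- growth of the quantity that appears in `det_vanish` -/
theorem growthG (w b l r κ μ σ c d Dg : ℕ) (hκ : μ + σ = κ) (R0 C2 : ℝ) (hd : 0 < d)
    (hR0 : 1 ≤ R0) (hC2 : 1 ≤ C2) (Kc : ℕ → Fin w → ℕ) (hKc : ∀ n i, Kc n i ≤ n ^ κ) :
    ∃ n0 : ℕ, ∀ n ≥ n0, 1 ≤ n →
    (2 * (((∏ i, (Kc n i + 1)) * (n ^ μ + 1) ^ b : ℕ) : ℝ)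
      * (((r + w : ℕ) + 1) * (2 * E1 (n ^ κ + c * n ^ κ) (C2 * (c * (n : ℝ) ^ κ))) ^ (r + w))
      * ((d : ℝ) ^ (w * (c * n ^ κ + n ^ κ) + b * (l * ((c * n ^ σ) * n ^ μ)))) ^ Dg
      * ((((∏ i, (Kc n i + 1)) * (n ^ μ + 1) ^ b : ℕ) : ℝ) *
        (((1 + b * R0 * ((n ^ μ : ℕ) : ℝ) + ((n ^ κ : ℕ) : ℝ)) ^ (c * n ^ κ)
          * (1 + l * R0 * ((c * n ^ σ : ℕ) : ℝ)) ^ (n ^ κ)) ^ w
            * (R0 ^ (l * ((c * n ^ σ) * n ^ μ))) ^ b)) ^ Dg) ^ 2
      < 2 ^ (n ^ (κ + 1)) := by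
  have hN : Good κ (fun n : ℕ => (((∏ i, (Kc n i + 1)) * (n ^ μ + 1) ^ b : ℕ) : ℝ)) := by
    have h1 : Good κ (fun n : ℕ => ((2 : ℝ) * (n : ℝ) ^ κ) ^ w * ((2 : ℝ) * (n : ℝ) ^ μ) ^ b) :=
      (((Good.const 2 (by norm_num)).mul (Good.natPow κ)).pow w).mul
        (((Good.const 2 (by norm_num)).mul (Good.natPow μ)).pow b)
    refine h1.mono (fun n hn => ?_) (fun n hn => ?_)
    · have : 1 ≤ (∏ i, (Kc n i + 1)) * (n ^ μ + 1) ^ b := by
        apply Nat.succ_le_of_lt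
        apply Nat.mul_pos
        · exact Finset.prod_pos (fun i _ => Nat.succ_pos _)
        · positivity
      exact_mod_cast this
    · have hn1 : (1 : ℝ) ≤ n := by exact_mod_cast hn
      have a1 : (1 : ℝ) ≤ (n : ℝ) ^ κ := one_le_pow₀ hn1
      have a2 : (1 : ℝ) ≤ (n : ℝ) ^ μ := one_le_pow₀ hn1
      push_cast
      have b1 : ∏ i : Fin w, ((Kc n i : ℝ) + 1) ≤ (2 * (n : ℝ) ^ κ) ^ w := by
        have : ∀ i ∈ (Finset.univ : Finset (Fin w)), ((Kc n i : ℝ) + 1) ≤ 2 * (n : ℝ) ^ κ := by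
          intro i _
          have : (Kc n i : ℝ) ≤ (n : ℝ) ^ κ := by exact_mod_cast hKc n i
          linarith
        refine (Finset.prod_le_prod (fun i _ => by positivity) this).trans ?_
        simp
      have b2 : ((n : ℝ) ^ μ + 1) ^ b ≤ (2 * (n : ℝ) ^ μ) ^ b :=
        pow_le_pow_left₀ (by positivity) (by linarith) _
      exact mul_le_mul b1 b2 (by positivity) (by positivity)
  have hE : Good κ (fun n : ℕ => E1 (n ^ κ + c * n ^ κ) (C2 * (c * (n : ℝ) ^ κ))) := by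
    unfold E1
    apply Good.mul
    · refine Good.factorial (fun n => n ^ κ + c * n ^ κ) (1 + c) ?_ ?_
      · intro n hn
        have : 1 ≤ n ^ κ := Nat.one_le_pow _ _ hn
        omega
      · intro n _
        push_cast
        apply le_of_eq; ring
    · refine Good.exp _ (6 * C2 * c) ?_ ?_
      · intro n _; positivity
      · intro n _; apply le_of_eq; ring
  have hd1 : (1 : ℝ) ≤ d := by exact_mod_cast hd
  have hσμ : ∀ n : ℕ, ((n : ℝ) ^ σ) * (n : ℝ) ^ μ = (n : ℝ) ^ κ := by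
    intro n; rw [← pow_add, add_comm σ μ, hκ]
  have hD : Good κ (fun n : ℕ => (d : ℝ) ^ (w * (c * n ^ κ + n ^ κ)
      + b * (l * ((c * n ^ σ) * n ^ μ)))) := by
    refine Good.powVar (Good.const _ hd1)
      (fun n => w * (c * n ^ κ + n ^ κ) + b * (l * ((c * n ^ σ) * n ^ μ))) (w * (c + 1) + b * l * c) ?_
    intro n _
    push_cast
    apply le_of_eq
    rw [← hσμ n]; ring
  have hB1 : Good κ (fun n : ℕ => (1 + b * R0 * ((n ^ μ : ℕ) : ℝ) + ((n ^ κ : ℕ) : ℝ)) ^ (c * n ^ κ)) := by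
    refine Good.powVar (f := fun n : ℕ => (1 + b * R0 * ((n ^ μ : ℕ) : ℝ) + ((n ^ κ : ℕ) : ℝ))) ?_
      (fun n => c * n ^ κ) c ?_
    · have h1 : Good 0 (fun n : ℕ => (2 + b * R0 : ℝ) * (n : ℝ) ^ κ) :=
        (Good.const (2 + b * R0) (by
          have : (0 : ℝ) ≤ b * R0 := by positivity
          linarith)).mul (Good.natPow κ)
      refine h1.mono (fun n hn => ?_) (fun n hn => ?_)
      · have : (0 : ℝ) ≤ b * R0 * ((n ^ μ : ℕ) : ℝ) := by positivity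
        have : (0 : ℝ) ≤ ((n ^ κ : ℕ) : ℝ) := by positivity
        linarith
      · have hn1 : (1 : ℝ) ≤ n := by exact_mod_cast hn
        have a1 : (n : ℝ) ^ μ ≤ (n : ℝ) ^ κ := pow_le_pow_right₀ hn1 (by omega)
        have a2 : (1 : ℝ) ≤ (n : ℝ) ^ κ := one_le_pow₀ hn1
        have a3 : b * R0 * (n : ℝ) ^ μ ≤ b * R0 * (n : ℝ) ^ κ :=
          mul_le_mul_of_nonneg_left a1 (by positivity)
        push_cast
        nlinarith
    · intro n _
      push_cast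
      apply le_of_eq; ring
  have hB2 : Good κ (fun n : ℕ => (1 + l * R0 * ((c * n ^ σ : ℕ) : ℝ)) ^ (n ^ κ)) := by
    refine Good.powVar (f := fun n : ℕ => (1 + l * R0 * ((c * n ^ σ : ℕ) : ℝ))) ?_
      (fun n => n ^ κ) 1 ?_
    · have h1 : Good 0 (fun n : ℕ => (1 + l * R0 * c : ℝ) * (n : ℝ) ^ σ) :=
        (Good.const (1 + l * R0 * c) (by
          have : (0 : ℝ) ≤ l * R0 * c := by positivity
          linarith)).mul (Good.natPow σ)
      refine h1.mono (fun n hn => ?_) (fun n hn => ?_)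
      · have : (0 : ℝ) ≤ l * R0 * ((c * n ^ σ : ℕ) : ℝ) := by positivity
        linarith
      · have hn1 : (1 : ℝ) ≤ n := by exact_mod_cast hn
        have a1 : (1 : ℝ) ≤ (n : ℝ) ^ σ := one_le_pow₀ hn1
        push_cast
        nlinarith
    · intro n _
      push_cast
      apply le_of_eq; ring
  have hB3 : Good κ (fun n : ℕ => R0 ^ (l * ((c * n ^ σ) * n ^ μ))) := by
    refine Good.powVar (Good.const _ hR0) (fun n => l * ((c * n ^ σ) * n ^ μ)) (l * c) ?_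
    intro n _
    push_cast
    apply le_of_eq
    rw [← hσμ n]; ring
  have hrw : (1 : ℝ) ≤ ((r + w : ℕ) : ℝ) + 1 := by
    have : (0 : ℝ) ≤ ((r + w : ℕ) : ℝ) := Nat.cast_nonneg _
    linarith
  have hall := ((((Good.const (u := κ) 2 (by norm_num)).mul hN).mul
    ((Good.const (u := κ) (((r + w : ℕ) : ℝ) + 1) hrw).mul
      (((Good.const (u := κ) 2 (by norm_num)).mul hE).pow (r + w)))).mul (hD.pow Dg)).mul
    ((hN.mul (((hB1.mul hB2).pow w).mul (hB3.pow b))).pow Dg)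
  exact hall.eventually_lt

/-- **Existence of an auxiliary polynomial with many zeros** (from interpolation determinants). -/
theorem exists_aux_pos {F : Type*} [Field F] [NumberField F] (φ : F →ₐ[ℚ] ℂ) {w b l r : ℕ}
    (A : Finset (Fin w)) (γ : Fin w → Fin b → F) (α : Fin w → Fin l → F) (χ : Fin b → Fin l → F)
    (x : Fin r → Fin b → ℂ) (y : Fin r → Fin l → ℂ) (ω : Fin w → Fin l → ℂ)
    (hα : ∀ i ∈ A, ∀ p, φ (α i p) = ω i p)
    (hχ : ∀ j p, φ (χ j p) = Complex.exp (∑ ρ, x ρ j * y ρ p + ∑ i, φ (γ i j) * ω i p))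
    (κ μ σ c : ℕ) (hκ : μ + σ = κ) (hcount : (κ + 1) * (r + w) + 1 ≤ A.card * κ + b * μ)
    (hc : 1 ≤ c) :
    ∃ n0 : ℕ, ∀ n ≥ n0, ∃ p : JG (fun i => if i ∈ A then n ^ κ else 0) b (n ^ μ) → ℂ, p ≠ 0 ∧
      ∀ (t : Fin w → ℕ) (s : Fin l → ℕ), (∀ i, t i ≤ c * n ^ κ) → (∀ q, s q ≤ c * n ^ σ) →
        ∑ j, p j * entG (fun i j => φ (γ i j)) (fun i q => φ (α i q)) (fun j q => φ (χ j q))
          (fun i => (j.1 i : ℕ)) (fun i => (j.2 i : ℕ)) t s = 0 := by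
  classical
  -- common denominator
  obtain ⟨d, hd, hden⟩ := exists_den (K := F)
    ((Finset.univ.image (fun ij : Fin w × Fin b => γ ij.1 ij.2)) ∪
      ((Finset.univ.image (fun ij : Fin w × Fin l => α ij.1 ij.2)) ∪
        (Finset.univ.image (fun ij : Fin b × Fin l => χ ij.1 ij.2))))
  have dγ : ∀ i j, IntD d 1 (γ i j) := fun i j => hden _ (Finset.mem_union_left _
    (Finset.mem_image.mpr ⟨(i, j), Finset.mem_univ _, rfl⟩))
  have dα : ∀ i j, IntD d 1 (α i j) := fun i j => hden _ (Finset.mem_union_right _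
    (Finset.mem_union_left _ (Finset.mem_image.mpr ⟨(i, j), Finset.mem_univ _, rfl⟩)))
  have dχ : ∀ i j, IntD d 1 (χ i j) := fun i j => hden _ (Finset.mem_union_right _
    (Finset.mem_union_right _ (Finset.mem_image.mpr ⟨(i, j), Finset.mem_univ _, rfl⟩)))
  -- bound for the conjugates
  obtain ⟨R0, hR0, hR0'⟩ : ∃ R0 : ℝ, 1 ≤ R0 ∧ ∀ τ : F →ₐ[ℚ] ℂ,
      (∀ i j, ‖τ (γ i j)‖ ≤ R0) ∧ (∀ i j, ‖τ (α i j)‖ ≤ R0) ∧ (∀ i j, ‖τ (χ i j)‖ ≤ R0) := by
    refine ⟨1 + ∑ τ : F →ₐ[ℚ] ℂ, ((∑ ij : Fin w × Fin b, ‖τ (γ ij.1 ij.2)‖)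
      + (∑ ij : Fin w × Fin l, ‖τ (α ij.1 ij.2)‖) + ∑ ij : Fin b × Fin l, ‖τ (χ ij.1 ij.2)‖), ?_, ?_⟩
    · have : 0 ≤ ∑ τ : F →ₐ[ℚ] ℂ, ((∑ ij : Fin w × Fin b, ‖τ (γ ij.1 ij.2)‖)
        + (∑ ij : Fin w × Fin l, ‖τ (α ij.1 ij.2)‖) + ∑ ij : Fin b × Fin l, ‖τ (χ ij.1 ij.2)‖) :=
        Finset.sum_nonneg (fun τ _ => by positivity)
      linarith
    · intro τ
      have hle := Finset.single_le_sum (f := fun τ : F →ₐ[ℚ] ℂ =>
        ((∑ ij : Fin w × Fin b, ‖τ (γ ij.1 ij.2)‖)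
        + (∑ ij : Fin w × Fin l, ‖τ (α ij.1 ij.2)‖) + ∑ ij : Fin b × Fin l, ‖τ (χ ij.1 ij.2)‖))
          (fun τ _ => by positivity) (Finset.mem_univ τ)
      have n1 : 0 ≤ ∑ ij : Fin w × Fin b, ‖τ (γ ij.1 ij.2)‖ := Finset.sum_nonneg fun _ _ => norm_nonneg _
      have n2 : 0 ≤ ∑ ij : Fin w × Fin l, ‖τ (α ij.1 ij.2)‖ := Finset.sum_nonneg fun _ _ => norm_nonneg _
      have n3 : 0 ≤ ∑ ij : Fin b × Fin l, ‖τ (χ ij.1 ij.2)‖ := Finset.sum_nonneg fun _ _ => norm_nonneg _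
      refine ⟨fun i j => ?_, fun i j => ?_, fun i j => ?_⟩
      · have := Finset.single_le_sum (f := fun ij : Fin w × Fin b => ‖τ (γ ij.1 ij.2)‖)
          (fun _ _ => norm_nonneg _) (Finset.mem_univ (i, j))
        linarith
      · have := Finset.single_le_sum (f := fun ij : Fin w × Fin l => ‖τ (α ij.1 ij.2)‖)
          (fun _ _ => norm_nonneg _) (Finset.mem_univ (i, j))
        linarith
      · have := Finset.single_le_sum (f := fun ij : Fin b × Fin l => ‖τ (χ ij.1 ij.2)‖)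
          (fun _ _ => norm_nonneg _) (Finset.mem_univ (i, j))
        linarith
  -- bound for the analytic data
  obtain ⟨Cx, hCx, hCx1, hCx2, hCx3, hCx4⟩ : ∃ Cx : ℝ, 1 ≤ Cx ∧ (∀ ρ j, ‖x ρ j‖ ≤ Cx) ∧
      (∀ ρ p, ‖y ρ p‖ ≤ Cx) ∧ (∀ i p, ‖ω i p‖ ≤ Cx) ∧ (∀ i j, ‖φ (γ i j)‖ ≤ Cx) := by
    refine ⟨1 + ((∑ ij : Fin r × Fin b, ‖x ij.1 ij.2‖) + (∑ ij : Fin r × Fin l, ‖y ij.1 ij.2‖) +
      (∑ ij : Fin w × Fin l, ‖ω ij.1 ij.2‖) + ∑ ij : Fin w × Fin b, ‖φ (γ ij.1 ij.2)‖), ?_, ?_⟩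
    · have : 0 ≤ ((∑ ij : Fin r × Fin b, ‖x ij.1 ij.2‖) + (∑ ij : Fin r × Fin l, ‖y ij.1 ij.2‖) +
        (∑ ij : Fin w × Fin l, ‖ω ij.1 ij.2‖) + ∑ ij : Fin w × Fin b, ‖φ (γ ij.1 ij.2)‖) := by
        positivity
      linarith
    · have n1 : 0 ≤ ∑ ij : Fin r × Fin b, ‖x ij.1 ij.2‖ := Finset.sum_nonneg fun _ _ => norm_nonneg _
      have n2 : 0 ≤ ∑ ij : Fin r × Fin l, ‖y ij.1 ij.2‖ := Finset.sum_nonneg fun _ _ => norm_nonneg _
      have n3 : 0 ≤ ∑ ij : Fin w × Fin l, ‖ω ij.1 ij.2‖ := Finset.sum_nonneg fun _ _ => norm_nonneg _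
      have n4 : 0 ≤ ∑ ij : Fin w × Fin b, ‖φ (γ ij.1 ij.2)‖ :=
        Finset.sum_nonneg fun _ _ => norm_nonneg _
      refine ⟨fun i j => ?_, fun i j => ?_, fun i j => ?_, fun i j => ?_⟩
      · have := Finset.single_le_sum (f := fun ij : Fin r × Fin b => ‖x ij.1 ij.2‖)
          (fun _ _ => norm_nonneg _) (Finset.mem_univ (i, j))
        linarith
      · have := Finset.single_le_sum (f := fun ij : Fin r × Fin l => ‖y ij.1 ij.2‖)
          (fun _ _ => norm_nonneg _) (Finset.mem_univ (i, j))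
        linarith
      · have := Finset.single_le_sum (f := fun ij : Fin w × Fin l => ‖ω ij.1 ij.2‖)
          (fun _ _ => norm_nonneg _) (Finset.mem_univ (i, j))
        linarith
      · have := Finset.single_le_sum (f := fun ij : Fin w × Fin b => ‖φ (γ ij.1 ij.2)‖)
          (fun _ _ => norm_nonneg _) (Finset.mem_univ (i, j))
        linarith
  set C1 : ℝ := (1 + b) * Cx with hC1
  set C2 : ℝ := (1 + l) * Cx with hC2
  have hC1' : 1 ≤ C1 := by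
    have : (0 : ℝ) ≤ b := Nat.cast_nonneg _
    rw [hC1]; nlinarith
  have hC2' : 1 ≤ C2 := by
    have : (0 : ℝ) ≤ l := Nat.cast_nonneg _
    rw [hC2]; nlinarith
  have hC12 : 1 ≤ C1 * C2 := one_le_mul_of_one_le_of_one_le hC1' hC2'
  obtain ⟨n0, hn0⟩ := growthG w b l r κ μ σ c d (Module.finrank ℚ F) hκ R0 (C1 * C2) hd hR0 hC12
    (fun n i => if i ∈ A then n ^ κ else 0) (by intro n i; split_ifs <;> simp)
  refine ⟨max n0 2, fun n hn => ?_⟩
  have hn1 : n0 ≤ n := (le_max_left _ _).trans hn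
  have hn2 : 2 ≤ n := (le_max_right _ _).trans hn
  have hgrow := hn0 n hn1 (by omega)
  by_contra hcon
  push Not at hcon
  set Kc : Fin w → ℕ := fun i => if i ∈ A then n ^ κ else 0 with hKc
  have hKc' : ∀ i, Kc i ≤ n ^ κ := by intro i; simp only [hKc]; split_ifs <;> simp
  set M := n ^ μ with hM
  set S := c * n ^ σ with hS
  set T := c * n ^ κ with hT
  have hnpos : 0 < n := by omega
  obtain ⟨cc, hcc⟩ := exists_det_ne_zero (F := F) (J := JG Kc b M) (C := CG w l T S)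
    (fun j cd => entG γ α χ (fun i => (j.1 i : ℕ)) (fun i => (j.2 i : ℕ)) cd.1.1 cd.1.2) (by
      intro p hp
      by_contra hp0
      obtain ⟨t, s, ht, hs, hts⟩ := hcon (fun j => φ (p j)) (by
        intro h
        apply hp0
        funext j
        exact (map_eq_zero φ).mp (congrFun h j))
      apply hts
      have h1 := hp ⟨(t, s), ht, hs⟩
      have h2 := congrArg φ h1
      rw [map_zero, map_sum] at h2
      rw [← h2]
      apply Finset.sum_congr rfl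
      intro j _
      rw [map_mul]
      congr 1
      exact (entG_map (φ : F →+* ℂ) γ α χ _ _ t s).symm)
  apply hcc
  have hcpos : 1 ≤ c := hc
  have hMpos : 1 ≤ M := Nat.one_le_pow _ _ hnpos
  have hSpos : 1 ≤ S := Nat.succ_le_of_lt (Nat.mul_pos hcpos (Nat.pow_pos hnpos))
  refine det_vanish φ (L := Fin r ⊕ Fin w) (J := JG Kc b M)
    (fun j => Sum.elim (fun _ => 0) (fun i => (j.1 i : ℕ)))
    (fun j => Sum.elim (fun ρ => ∑ i, x ρ i * ((j.2 i : ℕ) : ℂ))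
      (fun i => ∑ q, φ (γ i q) * ((j.2 q : ℕ) : ℂ)))
    (fun i => Sum.elim (fun _ => 0) (cc i).1.1)
    (fun i => Sum.elim (fun ρ => ∑ q, y ρ q * ((cc i).1.2 q : ℂ))
      (fun q => ∑ q', ω q q' * ((cc i).1.2 q' : ℂ)))
    (n ^ κ + T) (n ^ (κ + 1)) (fun _ => C1 * M) (fun _ => C2 * S) ((C1 * C2) * (c * (n : ℝ) ^ κ))
    ?_ ?_ ?_ ?_ ?_ ?_ ?_ _ d (w * (T + n ^ κ) + b * (l * (S * M))) hd
    (((1 + b * R0 * M + (n ^ κ : ℕ)) ^ T * (1 + l * R0 * S) ^ (n ^ κ)) ^ w *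
      (R0 ^ (l * (S * M))) ^ b)
    ?_ ?_ ?_ ?_ ?_ ?_ ?_
  · intro _
    have : (1 : ℝ) ≤ M := by exact_mod_cast hMpos
    nlinarith
  · intro _
    have : (1 : ℝ) ≤ S := by exact_mod_cast hSpos
    nlinarith
  · intro _
    apply le_of_eq
    have : (n : ℝ) ^ κ = (n : ℝ) ^ μ * (n : ℝ) ^ σ := by rw [← pow_add, hκ]
    rw [hM, hS, this]; push_cast; ring
  · intro j i
    have hM0 : (0 : ℝ) ≤ M := Nat.cast_nonneg _
    have hj : ∀ i, (j.2 i : ℕ) ≤ M := fun i => Nat.lt_succ_iff.mp (j.2 i).2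
    rcases i with ρ | i
    · refine (norm_natsum_le Cx M (x ρ) (fun i => (j.2 i : ℕ)) (hCx1 ρ) hj).trans ?_
      rw [hC1]
      have : 0 ≤ Cx * (M : ℝ) := by positivity
      nlinarith
    · refine (norm_natsum_le Cx M (fun q => φ (γ i q)) (fun i => (j.2 i : ℕ)) (hCx4 i) hj).trans ?_
      rw [hC1]
      have : 0 ≤ Cx * (M : ℝ) := by positivity
      nlinarith
  · intro i' i
    have hS0 : (0 : ℝ) ≤ S := Nat.cast_nonneg _
    have hj : ∀ q, (cc i').1.2 q ≤ S := (cc i').2.2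
    rcases i with ρ | i
    · refine (norm_natsum_le Cx S (y ρ) (cc i').1.2 (hCx2 ρ) hj).trans ?_
      rw [hC2]
      have : 0 ≤ Cx * (S : ℝ) := by positivity
      nlinarith
    · refine (norm_natsum_le Cx S (ω i) (cc i').1.2 (hCx3 i) hj).trans ?_
      rw [hC2]
      have : 0 ≤ Cx * (S : ℝ) := by positivity
      nlinarith
  · intro j i' i
    rcases i with ρ | i
    · simp
    · have h1 : (j.1 i : ℕ) ≤ n ^ κ := (Nat.lt_succ_iff.mp (j.1 i).2).trans (hKc' i)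
      have h2 : (cc i').1.1 i ≤ T := (cc i').2.1 i
      exact Nat.add_le_add h1 h2
  · positivity
  · -- B ≥ 1
    have b1 : (1 : ℝ) ≤ (1 + b * R0 * M + (n ^ κ : ℕ)) ^ T := by
      apply one_le_pow₀
      have : (0 : ℝ) ≤ b * R0 * M := by positivity
      have : (0 : ℝ) ≤ ((n ^ κ : ℕ) : ℝ) := by positivity
      linarith
    have b2 : (1 : ℝ) ≤ (1 + l * R0 * S) ^ (n ^ κ) := by
      apply one_le_pow₀
      have : (0 : ℝ) ≤ l * R0 * S := by positivity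
      linarith
    exact one_le_mul_of_one_le_of_one_le
      (one_le_pow₀ (one_le_mul_of_one_le_of_one_le b1 b2)) (one_le_pow₀ (one_le_pow₀ hR0))
  · intro j i'
    exact entG_int dγ dα dχ (n ^ κ) M T S
      (fun i => (Nat.lt_succ_iff.mp (j.1 i).2).trans (hKc' i))
      (fun i => Nat.lt_succ_iff.mp (j.2 i).2) (cc i').2.1 (cc i').2.2
  · intro τ j i'
    obtain ⟨g1, g2, g3⟩ := hR0' τ
    have e1 := entG_map (τ : F →+* ℂ) γ α χ (fun i => (j.1 i : ℕ)) (fun i => (j.2 i : ℕ))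
      (cc i').1.1 (cc i').1.2
    have e2 := entG_norm hR0 g1 g2 g3 (n ^ κ) M T S
      (k := fun i => (j.1 i : ℕ)) (m := fun i => (j.2 i : ℕ))
      (fun i => (Nat.lt_succ_iff.mp (j.1 i).2).trans (hKc' i))
      (fun i => Nat.lt_succ_iff.mp (j.2 i).2) (cc i').2.1 (cc i').2.2
    exact (le_of_eq (congrArg norm e1)).trans e2
  · intro j i'
    have e1 := entG_map (φ : F →+* ℂ) γ α χ (fun i => (j.1 i : ℕ)) (fun i => (j.2 i : ℕ))
      (cc i').1.1 (cc i').1.2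
    have e2 := entG_exp (fun i j => φ (γ i j)) (fun i q => φ (α i q)) (fun j q => φ (χ j q))
      x y ω hχ (fun i => (j.1 i : ℕ)) (fun i => (j.2 i : ℕ)) (cc i').1.1 (cc i').1.2 (by
        intro i
        by_cases hi : i ∈ A
        · right; exact hα i hi
        · left
          have h1 : (j.1 i : ℕ) < Kc i + 1 := (j.1 i).2
          have h2 : Kc i = 0 := by rw [hKc]; simp [hi]
          omega)
    exact Eq.trans e1 e2
  · rw [card_JG]; positivity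
  · rw [card_JG]
    have hcardL : Fintype.card (Fin r ⊕ Fin w) = r + w := by simp
    rw [hcardL]
    have h1 : (n ^ κ) ^ A.card ≤ ∏ i, (Kc i + 1) := by
      have e : (n ^ κ) ^ A.card = ∏ i ∈ A, n ^ κ := by simp
      rw [e]
      calc ∏ i ∈ A, n ^ κ ≤ ∏ i ∈ A, (Kc i + 1) := by
            apply Finset.prod_le_prod' 
            intro i hi
            rw [hKc]; simp [hi]
        _ ≤ ∏ i, (Kc i + 1) := by
            apply Finset.prod_le_prod_of_subset_of_one_le' (Finset.subset_univ _)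
            intro i _ _
            omega
    have h2 : M ^ b ≤ (M + 1) ^ b := Nat.pow_le_pow_left (by omega) _
    calc 2 * (n ^ (κ + 1)) ^ (r + w) = 2 * n ^ ((κ + 1) * (r + w)) := by rw [← pow_mul]
      _ ≤ n * n ^ ((κ + 1) * (r + w)) := by gcongr
      _ = n ^ ((κ + 1) * (r + w) + 1) := by rw [pow_succ]; ring
      _ ≤ n ^ (A.card * κ + b * μ) := Nat.pow_le_pow_right hnpos hcount
      _ = (n ^ κ) ^ A.card * M ^ b := by rw [hM, ← pow_mul, ← pow_mul, ← pow_add]; ring_nf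
      _ ≤ _ := Nat.mul_le_mul h1 h2
  · have hcardL : Fintype.card (Fin r ⊕ Fin w) = r + w := by simp
    rw [card_JG, hcardL]
    exact hgrow

/-- **Existence of an auxiliary polynomial with many zeros** (from interpolation determinants). -/
theorem exists_aux {F : Type*} [Field F] [NumberField F] (φ : F →ₐ[ℚ] ℂ) {w b l r : ℕ}
    (A : Finset (Fin w)) (γ : Fin w → Fin b → F) (α : Fin w → Fin l → F) (χ : Fin b → Fin l → F)
    (x : Fin r → Fin b → ℂ) (y : Fin r → Fin l → ℂ) (ω : Fin w → Fin l → ℂ)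
    (hα : ∀ i ∈ A, ∀ p, φ (α i p) = ω i p)
    (hχ : ∀ j p, φ (χ j p) = Complex.exp (∑ ρ, x ρ j * y ρ p + ∑ i, φ (γ i j) * ω i p))
    (κ μ σ c : ℕ) (hκ : μ + σ = κ) (hcount : (κ + 1) * (r + w) + 1 ≤ A.card * κ + b * μ) :
    ∃ n0 : ℕ, ∀ n ≥ n0, ∃ p : JG (fun i => if i ∈ A then n ^ κ else 0) b (n ^ μ) → ℂ, p ≠ 0 ∧
      ∀ (t : Fin w → ℕ) (s : Fin l → ℕ), (∀ i, t i ≤ c * n ^ κ) → (∀ q, s q ≤ c * n ^ σ) →
        ∑ j, p j * entG (fun i j => φ (γ i j)) (fun i q => φ (α i q)) (fun j q => φ (χ j q))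
          (fun i => (j.1 i : ℕ)) (fun i => (j.2 i : ℕ)) t s = 0 := by
  obtain ⟨n0, hn0⟩ := exists_aux_pos φ A γ α χ x y ω hα hχ κ μ σ (c + 1) hκ hcount (by omega)
  refine ⟨n0, fun n hn => ?_⟩
  obtain ⟨p, hp, h⟩ := hn0 n hn
  refine ⟨p, hp, fun t s ht hs => h t s (fun i => (ht i).trans ?_) (fun q => (hs q).trans ?_)⟩
  · exact Nat.mul_le_mul_right _ (by omega)
  · exact Nat.mul_le_mul_right _ (by omega)

end Pool.Agent.H301R2.TR
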