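import Mathlib
import Pool.Agent.H301R2.TR.Vanish
import Pool.Agent.H301R2.TR.Select
import Pool.Agent.H301R2.TR.Growth
import Pool.Agent.H301R2.TR.LamR

set_option autoImplicit false

namespace Pool.Agent.H301R2.TR

open Finset

/-- one entry of the interpolation matrix (type II configuration), over any commutative ring -/
def entry1 {R : Type*} [CommRing R] (q r A D : R) (k1 k2 m1 m2 t1 t2 s1 s2 s3 : ℕ) : R :=
  LamR k1 m1 t1 (s1 : R) * LamR k2 m2 t2 (q * s2) * ((-1) ^ s2 * r ^ s3) ^ m1 * (A ^ s1 * D ^ s3) ^ m2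

/-- the zero estimate for the configuration N1 -/
def ZE1 : Prop := ∃ c : ℕ, 0 < c ∧ ∀ (A D r q : ℂ), A ≠ 0 → D ≠ 0 → r ≠ 0 → q ≠ 0 →
  (∀ n : ℤ, A ^ n = 1 → n = 0) → (∀ m n : ℤ, r ^ m * D ^ n = 1 → m = 0 ∧ n = 0) →
  ∀ K M T S : ℕ, 1 ≤ K → 1 ≤ M → 1 ≤ T → 1 ≤ S → c * K < T → c * M < T →
  c * K ^ 2 * M ^ 2 < T ^ 2 * S ^ 3 → c * K ^ 2 * M < T ^ 2 * S ^ 2 →
  c * K * M ^ 2 < T ^ 2 * S ^ 2 → c * K * M < T * S ^ 2 → c * M ^ 2 < T * S ^ 2 →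
  ∀ p : ℕ → ℕ → ℕ → ℕ → ℂ,
  (∀ t1 t2 s1 s2 s3 : ℕ, t1 + t2 ≤ 4 * T → s1 ≤ 4 * S → s2 ≤ 4 * S → s3 ≤ 4 * S →
    ∑ k1 ∈ range (K + 1), ∑ k2 ∈ range (K + 1), ∑ m1 ∈ range (M + 1), ∑ m2 ∈ range (M + 1),
      p k1 k2 m1 m2 * entry1 q r A D k1 k2 m1 m2 t1 t2 s1 s2 s3 = 0) →
  ∀ k1 ≤ K, ∀ k2 ≤ K, ∀ m1 ≤ M, ∀ m2 ≤ M, p k1 k2 m1 m2 = 0

theorem entry1_map {R S : Type*} [CommRing R] [CommRing S] (f : R →+* S) (q r A D : R)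
    (k1 k2 m1 m2 t1 t2 s1 s2 s3 : ℕ) :
    f (entry1 q r A D k1 k2 m1 m2 t1 t2 s1 s2 s3)
      = entry1 (f q) (f r) (f A) (f D) k1 k2 m1 m2 t1 t2 s1 s2 s3 := by
  simp [entry1, LamR_map]

/-- integrality of the entries -/
theorem entry1_int {F : Type*} [Field F] {d : ℕ} {q r A D : F} (hq : IntD d 1 q)
    (hr : IntD d 1 r) (hA : IntD d 1 A) (hD : IntD d 1 D) (K M S : ℕ)
    {k1 k2 m1 m2 t1 t2 s1 s2 s3 : ℕ} (hk1 : k1 ≤ K) (hk2 : k2 ≤ K) (hm1 : m1 ≤ M) (hm2 : m2 ≤ M)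
    (hs1 : s1 ≤ 4 * S) (hs3 : s3 ≤ 4 * S) :
    IntD d (2 * K + 12 * (S * M)) (entry1 q r A D k1 k2 m1 m2 t1 t2 s1 s2 s3) := by
  have hnat : ∀ n : ℕ, IntD d 1 (n : F) := fun n =>
    (IntD.of_int (isIntegral_natCast' n)).mono (by omega)
  have h1 : IntD d k1 (LamR k1 m1 t1 (s1 : F)) := (hnat s1).lamR k1 m1 t1
  have h2 : IntD d k2 (LamR k2 m2 t2 (q * (s2 : F))) := by
    refine IntD.lamR ?_ k2 m2 t2
    have := hq.mul (IntD.of_int (d := d) (isIntegral_natCast' (K := F) s2))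
    simpa using this
  have hneg : IntD d 0 ((-1 : F) ^ s2) := IntD.of_int ((isIntegral_one.neg).pow _)
  have h3 : IntD d ((0 + 1 * s3) * m1) (((-1 : F) ^ s2 * r ^ s3) ^ m1) :=
    (hneg.mul (hr.pow s3)).pow m1
  have h4 : IntD d ((1 * s1 + 1 * s3) * m2) ((A ^ s1 * D ^ s3) ^ m2) :=
    ((hA.pow s1).mul (hD.pow s3)).pow m2
  have h5 := ((h1.mul h2).mul h3).mul h4
  refine h5.mono ?_
  have a1 : s3 * m1 ≤ (4 * S) * M := Nat.mul_le_mul hs3 hm1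
  have a2 : s1 * m2 ≤ (4 * S) * M := Nat.mul_le_mul hs1 hm2
  have a3 : s3 * m2 ≤ (4 * S) * M := Nat.mul_le_mul hs3 hm2
  have e1 : (0 + 1 * s3) * m1 = s3 * m1 := by ring
  have e2 : (1 * s1 + 1 * s3) * m2 = s1 * m2 + s3 * m2 := by ring
  have e3 : (4 * S) * M = 4 * (S * M) := by ring
  rw [e1, e2]
  rw [e3] at a1 a2 a3
  omega

/-- size of the entries -/
theorem entry1_norm {q r A D : ℂ} {R0 : ℝ} (hR0 : 1 ≤ R0) (hq : ‖q‖ ≤ R0) (hr : ‖r‖ ≤ R0)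
    (hA : ‖A‖ ≤ R0) (hD : ‖D‖ ≤ R0) (K M S T : ℕ) (hK : 1 ≤ K) (hS : 1 ≤ S)
    {k1 k2 m1 m2 t1 t2 s1 s2 s3 : ℕ} (hk1 : k1 ≤ K) (hk2 : k2 ≤ K) (hm1 : m1 ≤ M) (hm2 : m2 ≤ M)
    (ht1 : t1 ≤ 4 * T) (ht2 : t2 ≤ 4 * T)
    (hs1 : s1 ≤ 4 * S) (hs2 : s2 ≤ 4 * S) (hs3 : s3 ≤ 4 * S) :
    ‖entry1 q r A D k1 k2 m1 m2 t1 t2 s1 s2 s3‖ ≤
      (((M : ℝ) + K) ^ (4 * T) * (4 * S * R0) ^ K) ^ 2 * R0 ^ (12 * (S * M)) := by
  have hS' : (1 : ℝ) ≤ S := by exact_mod_cast hS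
  have hK' : (1 : ℝ) ≤ K := by exact_mod_cast hK
  have hX : (1 : ℝ) ≤ 4 * S * R0 := by nlinarith
  have hMK : (1 : ℝ) ≤ (M : ℝ) + K := by
    have : (0 : ℝ) ≤ M := Nat.cast_nonneg _
    linarith
  have hlam : ∀ (k m t : ℕ) (x : ℂ), k ≤ K → m ≤ M → t ≤ 4 * T → ‖x‖ ≤ 4 * S * R0 →
      ‖LamR k m t x‖ ≤ ((M : ℝ) + K) ^ (4 * T) * (4 * S * R0) ^ K := by
    intro k m t x hk hm ht hx
    refine (norm_LamR_le k m t x (4 * S * R0) hX hx).trans ?_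
    have h1 : ((m : ℝ) + k) ^ t ≤ ((M : ℝ) + K) ^ (4 * T) := by
      have h2 : (m : ℝ) + k ≤ (M : ℝ) + K := by
        have : (m : ℝ) ≤ M := by exact_mod_cast hm
        have : (k : ℝ) ≤ K := by exact_mod_cast hk
        linarith
      calc ((m : ℝ) + k) ^ t ≤ ((M : ℝ) + K) ^ t := pow_le_pow_left₀ (by positivity) h2 _
        _ ≤ _ := pow_le_pow_right₀ hMK ht
    have h3 : (4 * S * R0) ^ k ≤ (4 * S * R0) ^ K := pow_le_pow_right₀ hX hk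
    gcongr
  have hx1 : ‖((s1 : ℕ) : ℂ)‖ ≤ 4 * S * R0 := by
    rw [Complex.norm_natCast]
    have : (s1 : ℝ) ≤ 4 * S := by exact_mod_cast hs1
    nlinarith
  have hx2 : ‖q * ((s2 : ℕ) : ℂ)‖ ≤ 4 * S * R0 := by
    rw [norm_mul, Complex.norm_natCast]
    have h1 : (s2 : ℝ) ≤ 4 * S := by exact_mod_cast hs2
    calc ‖q‖ * s2 ≤ R0 * (4 * S) := by gcongr
      _ = _ := by ring
  have h1 := hlam k1 m1 t1 _ hk1 hm1 ht1 hx1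
  have h2 := hlam k2 m2 t2 _ hk2 hm2 ht2 hx2
  have h3 : ‖((-1 : ℂ) ^ s2 * r ^ s3) ^ m1‖ ≤ R0 ^ (4 * (S * M)) := by
    rw [norm_pow, norm_mul, norm_pow, norm_pow, norm_neg, norm_one, one_pow, one_mul, ← pow_mul]
    calc ‖r‖ ^ (s3 * m1) ≤ R0 ^ (s3 * m1) := pow_le_pow_left₀ (norm_nonneg _) hr _
      _ ≤ _ := by
        apply pow_le_pow_right₀ hR0
        calc s3 * m1 ≤ (4 * S) * M := Nat.mul_le_mul hs3 hm1
          _ = _ := by ring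
  have h4 : ‖(A ^ s1 * D ^ s3) ^ m2‖ ≤ R0 ^ (8 * (S * M)) := by
    rw [norm_pow, norm_mul, norm_pow, norm_pow, mul_pow, ← pow_mul, ← pow_mul]
    calc ‖A‖ ^ (s1 * m2) * ‖D‖ ^ (s3 * m2) ≤ R0 ^ (s1 * m2) * R0 ^ (s3 * m2) := by
          gcongr
      _ = R0 ^ (s1 * m2 + s3 * m2) := by rw [pow_add]
      _ ≤ _ := by
        apply pow_le_pow_right₀ hR0
        calc s1 * m2 + s3 * m2 ≤ (4 * S) * M + (4 * S) * M :=
              add_le_add (Nat.mul_le_mul hs1 hm2) (Nat.mul_le_mul hs3 hm2)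
          _ = _ := by ring
  unfold entry1
  rw [norm_mul, norm_mul, norm_mul]
  have hG : (0 : ℝ) ≤ ((M : ℝ) + K) ^ (4 * T) * (4 * S * R0) ^ K := by positivity
  calc ‖LamR k1 m1 t1 ((s1 : ℕ) : ℂ)‖ * ‖LamR k2 m2 t2 (q * ((s2 : ℕ) : ℂ))‖
        * ‖((-1 : ℂ) ^ s2 * r ^ s3) ^ m1‖ * ‖(A ^ s1 * D ^ s3) ^ m2‖
      ≤ (((M : ℝ) + K) ^ (4 * T) * (4 * S * R0) ^ K) * (((M : ℝ) + K) ^ (4 * T) * (4 * S * R0) ^ K)
        * R0 ^ (4 * (S * M)) * R0 ^ (8 * (S * M)) := by gcongr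
    _ = (((M : ℝ) + K) ^ (4 * T) * (4 * S * R0) ^ K) ^ 2 * (R0 ^ (4 * (S * M)) * R0 ^ (8 * (S * M))) := by
        ring
    _ = _ := by rw [← pow_add]; congr 2; ring

/-- growth of the quantity that appears in `det_vanish` -/
theorem growth1 (c d Dg : ℕ) (R0 C2 : ℝ) (hd : 0 < d) (hR0 : 1 ≤ R0) (hC2 : 1 ≤ C2) :
    ∃ n0 : ℕ, ∀ n ≥ n0, 1 ≤ n →
    (2 * (((n ^ 30 + 1) * ((n ^ 30 + 1) * ((n ^ 17 + 1) * (n ^ 17 + 1))) : ℕ) : ℝ)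
      * ((3 + 1) * (2 * E1 (n ^ 30 + 4 * ((c + 1) * n ^ 30)) (4 * C2 ^ 2 * (n : ℝ) ^ 30)) ^ 3)
      * ((d : ℝ) ^ (2 * n ^ 30 + 12 * (n ^ 13 * n ^ 17))) ^ Dg
      * ((((n ^ 30 + 1) * ((n ^ 30 + 1) * ((n ^ 17 + 1) * (n ^ 17 + 1))) : ℕ) : ℝ) *
        (((((n ^ 17 : ℕ) : ℝ) + ((n ^ 30 : ℕ) : ℝ)) ^ (4 * ((c + 1) * n ^ 30))
          * (4 * ((n ^ 13 : ℕ) : ℝ) * R0) ^ (n ^ 30)) ^ 2 * R0 ^ (12 * (n ^ 13 * n ^ 17)))) ^ Dg) ^ 2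
      < 2 ^ (n ^ 31) := by
  have hN : Good 30 (fun n : ℕ => (((n ^ 30 + 1) * ((n ^ 30 + 1) * ((n ^ 17 + 1) * (n ^ 17 + 1))) : ℕ) : ℝ)) := by
    have h1 : Good 30 (fun n : ℕ => (16 : ℝ) * (n : ℝ) ^ 94) :=
      (Good.const 16 (by norm_num)).mul (Good.natPow 94)
    refine h1.mono (fun n hn => ?_) (fun n hn => ?_)
    · have : 1 ≤ (n ^ 30 + 1) * ((n ^ 30 + 1) * ((n ^ 17 + 1) * (n ^ 17 + 1))) := by
        apply Nat.succ_le_of_lt; positivity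
      exact_mod_cast this
    · have hn1 : (1 : ℝ) ≤ n := by exact_mod_cast hn
      have a1 : (1 : ℝ) ≤ (n : ℝ) ^ 30 := one_le_pow₀ hn1
      have a2 : (1 : ℝ) ≤ (n : ℝ) ^ 17 := one_le_pow₀ hn1
      push_cast
      calc ((n : ℝ) ^ 30 + 1) * (((n : ℝ) ^ 30 + 1) * (((n : ℝ) ^ 17 + 1) * ((n : ℝ) ^ 17 + 1)))
          ≤ ((n : ℝ) ^ 30 + (n : ℝ) ^ 30) * (((n : ℝ) ^ 30 + (n : ℝ) ^ 30) *
            (((n : ℝ) ^ 17 + (n : ℝ) ^ 17) * ((n : ℝ) ^ 17 + (n : ℝ) ^ 17))) := by gcongr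
        _ = _ := by ring
  have hE : Good 30 (fun n : ℕ => E1 (n ^ 30 + 4 * ((c + 1) * n ^ 30)) (4 * C2 ^ 2 * (n : ℝ) ^ 30)) := by
    unfold E1
    apply Good.mul
    · refine Good.factorial (fun n => n ^ 30 + 4 * ((c + 1) * n ^ 30)) (4 * c + 5) ?_ ?_
      · intro n hn
        have : 1 ≤ n ^ 30 := Nat.one_le_pow _ _ hn
        omega
      · intro n _
        push_cast
        apply le_of_eq; ring
    · refine Good.exp _ (24 * C2 ^ 2) ?_ ?_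
      · intro n _; positivity
      · intro n _; apply le_of_eq; ring
  have hd1 : (1 : ℝ) ≤ d := by exact_mod_cast hd
  have hD : Good 30 (fun n : ℕ => (d : ℝ) ^ (2 * n ^ 30 + 12 * (n ^ 13 * n ^ 17))) := by
    refine Good.powVar (Good.const _ hd1) (fun n => 2 * n ^ 30 + 12 * (n ^ 13 * n ^ 17)) 14 ?_
    intro n _
    push_cast
    apply le_of_eq; ring
  have hB1 : Good 30 (fun n : ℕ => ((((n ^ 17 : ℕ) : ℝ) + ((n ^ 30 : ℕ) : ℝ)) ^ (4 * ((c + 1) * n ^ 30)))) := by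
    refine Good.powVar (f := fun n : ℕ => (((n ^ 17 : ℕ) : ℝ) + ((n ^ 30 : ℕ) : ℝ))) ?_
      (fun n => 4 * ((c + 1) * n ^ 30)) (4 * (c + 1)) ?_
    · have h1 : Good 0 (fun n : ℕ => (2 : ℝ) * (n : ℝ) ^ 30) :=
        (Good.const 2 (by norm_num)).mul (Good.natPow 30)
      refine h1.mono (fun n hn => ?_) (fun n hn => ?_)
      · have hn1 : (1 : ℝ) ≤ n := by exact_mod_cast hn
        have a1 : (1 : ℝ) ≤ (n : ℝ) ^ 30 := one_le_pow₀ hn1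
        push_cast
        have : (0 : ℝ) ≤ (n : ℝ) ^ 17 := by positivity
        linarith
      · have hn1 : (1 : ℝ) ≤ n := by exact_mod_cast hn
        have a1 : (n : ℝ) ^ 17 ≤ (n : ℝ) ^ 30 := pow_le_pow_right₀ hn1 (by norm_num)
        push_cast
        linarith
    · intro n _
      push_cast
      apply le_of_eq; ring
  have hB2 : Good 30 (fun n : ℕ => (4 * ((n ^ 13 : ℕ) : ℝ) * R0) ^ (n ^ 30)) := by
    refine Good.powVar (f := fun n : ℕ => (4 * ((n ^ 13 : ℕ) : ℝ) * R0)) ?_ (fun n => n ^ 30) 1 ?_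
    · have h1 : Good 0 (fun n : ℕ => (4 * R0 : ℝ) * (n : ℝ) ^ 13) :=
        (Good.const (4 * R0) (by linarith)).mul (Good.natPow 13)
      refine h1.mono (fun n hn => ?_) (fun n hn => ?_)
      · have hn1 : (1 : ℝ) ≤ n := by exact_mod_cast hn
        have a1 : (1 : ℝ) ≤ (n : ℝ) ^ 13 := one_le_pow₀ hn1
        push_cast
        nlinarith
      · push_cast
        apply le_of_eq; ring
    · intro n _
      push_cast
      apply le_of_eq; ring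
  have hB3 : Good 30 (fun n : ℕ => R0 ^ (12 * (n ^ 13 * n ^ 17))) := by
    refine Good.powVar (Good.const _ hR0) (fun n => 12 * (n ^ 13 * n ^ 17)) 12 ?_
    intro n _
    push_cast
    apply le_of_eq; ring
  have hall := ((((Good.const (u := 30) 2 (by norm_num)).mul hN).mul
    ((Good.const (u := 30) (3 + 1) (by norm_num)).mul
      (((Good.const (u := 30) 2 (by norm_num)).mul hE).pow 3))).mul (hD.pow Dg)).mul
    ((hN.mul (((hB1.mul hB2).pow 2).mul hB3)).pow Dg)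
  exact hall.eventually_lt

end Pool.Agent.H301R2.TR
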