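import Mathlib
import Pool.Agent.H301R2.TR.N1Core

set_option autoImplicit false

namespace Pool.Agent.H301R2.TR

open Finset Matrix

/-- index set of the monomials -/
abbrev J1 (K M : ℕ) := Fin (K + 1) × Fin (K + 1) × Fin (M + 1) × Fin (M + 1)

/-- index set of the conditions -/
def C1 (T S : ℕ) := {c : ℕ × ℕ × ℕ × ℕ × ℕ //
  c.1 + c.2.1 ≤ 4 * T ∧ c.2.2.1 ≤ 4 * S ∧ c.2.2.2.1 ≤ 4 * S ∧ c.2.2.2.2 ≤ 4 * S}

theorem sum_J1 {R : Type*} [AddCommMonoid R] (K M : ℕ) (f : ℕ → ℕ → ℕ → ℕ → R) :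
    ∑ j : J1 K M, f j.1 j.2.1 j.2.2.1 j.2.2.2 =
      ∑ k1 ∈ range (K + 1), ∑ k2 ∈ range (K + 1), ∑ m1 ∈ range (M + 1), ∑ m2 ∈ range (M + 1),
        f k1 k2 m1 m2 := by
  simp only [Fintype.sum_prod_type, Finset.sum_range]

theorem minor1 {F : Type*} [Field F] [NumberField F] (φ : F →ₐ[ℚ] ℂ) (K M T S : ℕ)
    (q r A D : F)
    (hz : ∀ p : ℕ → ℕ → ℕ → ℕ → ℂ,
      (∀ t1 t2 s1 s2 s3 : ℕ, t1 + t2 ≤ 4 * T → s1 ≤ 4 * S → s2 ≤ 4 * S → s3 ≤ 4 * S →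
        ∑ k1 ∈ range (K + 1), ∑ k2 ∈ range (K + 1), ∑ m1 ∈ range (M + 1), ∑ m2 ∈ range (M + 1),
          p k1 k2 m1 m2 * entry1 (φ q) (φ r) (φ A) (φ D) k1 k2 m1 m2 t1 t2 s1 s2 s3 = 0) →
      ∀ k1 ≤ K, ∀ k2 ≤ K, ∀ m1 ≤ M, ∀ m2 ≤ M, p k1 k2 m1 m2 = 0) :
    ∃ c : J1 K M → C1 T S, Matrix.det (fun j i : J1 K M =>
      entry1 q r A D j.1 j.2.1 j.2.2.1 j.2.2.2 (c i).1.1 (c i).1.2.1 (c i).1.2.2.1
        (c i).1.2.2.2.1 (c i).1.2.2.2.2) ≠ 0 := by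
  refine exists_det_ne_zero (J := J1 K M) (C := C1 T S) (fun j c =>
    entry1 q r A D j.1 j.2.1 j.2.2.1 j.2.2.2 c.1.1 c.1.2.1 c.1.2.2.1 c.1.2.2.2.1 c.1.2.2.2.2) ?_
  intro p hp
  let p' : ℕ → ℕ → ℕ → ℕ → ℂ := fun k1 k2 m1 m2 =>
    if h : k1 < K + 1 ∧ k2 < K + 1 ∧ m1 < M + 1 ∧ m2 < M + 1 then
      φ (p (⟨k1, h.1⟩, ⟨k2, h.2.1⟩, ⟨m1, h.2.2.1⟩, ⟨m2, h.2.2.2⟩)) else 0
  have hp' : ∀ j : J1 K M, p' j.1 j.2.1 j.2.2.1 j.2.2.2 = φ (p j) := by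
    intro j
    have h : (j.1 : ℕ) < K + 1 ∧ (j.2.1 : ℕ) < K + 1 ∧ (j.2.2.1 : ℕ) < M + 1 ∧
      (j.2.2.2 : ℕ) < M + 1 := ⟨j.1.2, j.2.1.2, j.2.2.1.2, j.2.2.2.2⟩
    simp only [p', dif_pos h]
  have key := hz p' ?_
  · funext j
    have h1 := key j.1 (Nat.lt_succ_iff.mp j.1.2) j.2.1 (Nat.lt_succ_iff.mp j.2.1.2)
      j.2.2.1 (Nat.lt_succ_iff.mp j.2.2.1.2) j.2.2.2 (Nat.lt_succ_iff.mp j.2.2.2.2)
    rw [hp' j] at h1
    exact (map_eq_zero φ).mp h1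
  · intro t1 t2 s1 s2 s3 ht hs1 hs2 hs3
    have h1 := hp ⟨(t1, t2, s1, s2, s3), ht, hs1, hs2, hs3⟩
    rw [← sum_J1 K M (fun k1 k2 m1 m2 => p' k1 k2 m1 m2 *
      entry1 (φ q) (φ r) (φ A) (φ D) k1 k2 m1 m2 t1 t2 s1 s2 s3)]
    have h2 := congrArg φ h1
    rw [map_zero, map_sum] at h2
    rw [← h2]
    apply Finset.sum_congr rfl
    intro j _
    simp only []
    rw [hp' j, map_mul]
    congr 1
    exact (entry1_map (φ : F →+* ℂ) q r A D _ _ _ _ t1 t2 s1 s2 s3).symm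

/-- the analytic identity behind the matrix -/
theorem entry1_exp (E ρ : ℝ) (q r A D : ℂ) (hq : q = Complex.I * Real.pi * E)
    (hr : r = Complex.exp ρ) (hA : A = Complex.exp E) (hD : D = Complex.exp (E * ρ))
    (k1 k2 m1 m2 t1 t2 s1 s2 s3 : ℕ) :
    entry1 q r A D k1 k2 m1 m2 t1 t2 s1 s2 s3 =
      ∏ l : Fin 3, (LamC ((![(m1 : ℂ) + m2 * E, -(m1 : ℂ), -(m2 : ℂ)] : Fin 3 → ℂ) l)
        ((![0, k1, k2] : Fin 3 → ℕ) l) ((![0, t1, t2] : Fin 3 → ℕ) l)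
        ((![(s1 : ℂ) + s2 * (Real.pi * Complex.I) + s3 * ρ, (s1 : ℂ), q * s2] : Fin 3 → ℂ) l)
        * Complex.exp ((![(m1 : ℂ) + m2 * E, -(m1 : ℂ), -(m2 : ℂ)] : Fin 3 → ℂ) l *
          (![(s1 : ℂ) + s2 * (Real.pi * Complex.I) + s3 * ρ, (s1 : ℂ), q * s2] : Fin 3 → ℂ) l)) := by
  rw [Fin.prod_univ_three]
  simp only [Matrix.cons_val_zero, Matrix.cons_val_one, Matrix.cons_val_two, Matrix.head_cons,
    Matrix.tail_cons, Matrix.cons_val]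
  have h0 : LamC ((m1 : ℂ) + m2 * E) 0 0 ((s1 : ℂ) + s2 * (Real.pi * Complex.I) + s3 * ρ) = 1 := by
    simp [LamC]
  rw [h0, one_mul, ← LamR_eq, ← LamR_eq]
  unfold entry1
  have hexp : ((-1 : ℂ) ^ s2 * r ^ s3) ^ m1 * (A ^ s1 * D ^ s3) ^ m2 =
      Complex.exp (((m1 : ℂ) + m2 * E) * ((s1 : ℂ) + s2 * (Real.pi * Complex.I) + s3 * ρ)) *
        Complex.exp (-(m1 : ℂ) * s1) * Complex.exp (-(m2 : ℂ) * (q * s2)) := by
    rw [hr, hA, hD, ← Complex.exp_pi_mul_I]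
    simp only [← Complex.exp_nat_mul, ← Complex.exp_add]
    congr 1
    rw [hq]
    ring
  rw [mul_assoc, hexp]
  ring

theorem norm_a1_le (E : ℝ) (M m1 m2 : ℕ) (hm1 : m1 ≤ M) (hm2 : m2 ≤ M) (C : ℝ)
    (hC : 1 + |E| ≤ C) (l : Fin 3) :
    ‖(![(m1 : ℂ) + m2 * E, -(m1 : ℂ), -(m2 : ℂ)] : Fin 3 → ℂ) l‖ ≤ C * M := by
  have h1 : (m1 : ℝ) ≤ M := by exact_mod_cast hm1
  have h2 : (m2 : ℝ) ≤ M := by exact_mod_cast hm2
  have hM0 : (0 : ℝ) ≤ M := Nat.cast_nonneg _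
  have hE' : 0 ≤ |E| := abs_nonneg _
  have hnrm : ∀ (m : ℕ), ‖(m : ℂ)‖ = m := fun m => Complex.norm_natCast m
  have hCM : (1 + |E|) * M ≤ C * M := mul_le_mul_of_nonneg_right hC hM0
  have hEM : 0 ≤ |E| * M := mul_nonneg hE' hM0
  fin_cases l
  · show ‖(m1 : ℂ) + m2 * E‖ ≤ C * M
    have h3 : ‖(m1 : ℂ) + m2 * E‖ ≤ ‖(m1 : ℂ)‖ + ‖(m2 : ℂ) * E‖ := norm_add_le _ _
    rw [norm_mul, hnrm, hnrm, Complex.norm_real, Real.norm_eq_abs] at h3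
    have h4 : (m2 : ℝ) * |E| ≤ M * |E| := mul_le_mul_of_nonneg_right h2 hE'
    nlinarith
  · show ‖-(m1 : ℂ)‖ ≤ C * M
    rw [norm_neg, hnrm]
    linarith
  · show ‖-(m2 : ℂ)‖ ≤ C * M
    rw [norm_neg, hnrm]
    linarith

theorem norm_w1_le (ρ : ℝ) (q : ℂ) (S s1 s2 s3 : ℕ) (hs1 : s1 ≤ 4 * S) (hs2 : s2 ≤ 4 * S)
    (hs3 : s3 ≤ 4 * S) (C : ℝ) (hC : 1 + Real.pi + |ρ| + ‖q‖ ≤ C) (l : Fin 3) :
    ‖(![(s1 : ℂ) + s2 * (Real.pi * Complex.I) + s3 * ρ, (s1 : ℂ), q * s2] : Fin 3 → ℂ) l‖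
      ≤ 4 * S * C := by
  have h1 : (s1 : ℝ) ≤ 4 * S := by exact_mod_cast hs1
  have h2 : (s2 : ℝ) ≤ 4 * S := by exact_mod_cast hs2
  have h3 : (s3 : ℝ) ≤ 4 * S := by exact_mod_cast hs3
  have hS0 : (0 : ℝ) ≤ S := Nat.cast_nonneg _
  have hS4 : (0 : ℝ) ≤ 4 * (S : ℝ) := by linarith
  have hpi : 0 < Real.pi := Real.pi_pos
  have hρ' : 0 ≤ |ρ| := abs_nonneg _
  have hq' : 0 ≤ ‖q‖ := norm_nonneg _
  have hnrm : ∀ (m : ℕ), ‖(m : ℂ)‖ = m := fun m => Complex.norm_natCast m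
  have hCS : 4 * (S : ℝ) * (1 + Real.pi + |ρ| + ‖q‖) ≤ 4 * S * C :=
    mul_le_mul_of_nonneg_left hC hS4
  have a1 := mul_nonneg hS4 hpi.le
  have a2 := mul_nonneg hS4 hρ'
  have a3 := mul_nonneg hS4 hq'
  fin_cases l
  · show ‖(s1 : ℂ) + s2 * (Real.pi * Complex.I) + s3 * ρ‖ ≤ 4 * S * C
    have b1 : ‖(s1 : ℂ) + s2 * (Real.pi * Complex.I) + s3 * ρ‖ ≤
        ‖(s1 : ℂ) + s2 * (Real.pi * Complex.I)‖ + ‖(s3 : ℂ) * ρ‖ := norm_add_le _ _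
    have b2 : ‖(s1 : ℂ) + s2 * (Real.pi * Complex.I)‖ ≤
        ‖(s1 : ℂ)‖ + ‖(s2 : ℂ) * (Real.pi * Complex.I)‖ := norm_add_le _ _
    rw [norm_mul, hnrm, Complex.norm_real, Real.norm_eq_abs] at b1
    rw [norm_mul, norm_mul, hnrm, hnrm, Complex.norm_real, Complex.norm_I, mul_one,
      Real.norm_eq_abs, abs_of_pos hpi] at b2
    have b3 : (s2 : ℝ) * Real.pi ≤ 4 * S * Real.pi := mul_le_mul_of_nonneg_right h2 hpi.le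
    have b4 : (s3 : ℝ) * |ρ| ≤ 4 * S * |ρ| := mul_le_mul_of_nonneg_right h3 hρ'
    nlinarith
  · show ‖(s1 : ℂ)‖ ≤ 4 * S * C
    rw [hnrm]
    nlinarith
  · show ‖q * (s2 : ℂ)‖ ≤ 4 * S * C
    rw [norm_mul, hnrm]
    have b3 : ‖q‖ * (s2 : ℝ) ≤ ‖q‖ * (4 * S) := mul_le_mul_of_nonneg_left h2 hq'
    nlinarith

theorem core1 (hZE : ZE1) {F : Type*} [Field F] [NumberField F] (φ : F →ₐ[ℚ] ℂ) (E ρ : ℝ)
    (hE : Irrational E) (hρ : ρ ≠ 0) (xq xR xA xD : F)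
    (h1 : φ xq = Complex.I * Real.pi * E) (h2 : φ xR = Complex.exp ρ)
    (h3 : φ xA = Complex.exp E) (h4 : φ xD = Complex.exp (E * ρ)) : False := by
  classical
  obtain ⟨c, hc, hZE⟩ := hZE
  have hE0 : E ≠ 0 := fun h => hE ⟨0, by simp [h]⟩
  -- non degeneracy
  have hq0 : φ xq ≠ 0 := by
    rw [h1]
    have : (Real.pi : ℂ) ≠ 0 := by exact_mod_cast Real.pi_ne_zero
    have : (E : ℂ) ≠ 0 := by exact_mod_cast hE0
    simp [*]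
  have hr0 : φ xR ≠ 0 := by rw [h2]; exact Complex.exp_ne_zero _
  have hA0 : φ xA ≠ 0 := by rw [h3]; exact Complex.exp_ne_zero _
  have hD0 : φ xD ≠ 0 := by rw [h4]; exact Complex.exp_ne_zero _
  have hAn : ∀ n : ℤ, φ xA ^ n = 1 → n = 0 := by
    intro n hn
    rw [h3, ← Complex.exp_int_mul] at hn
    have h5 : Complex.exp ((n * E : ℝ) : ℂ) = 1 := by push_cast; exact hn
    rw [← Complex.ofReal_exp] at h5
    have h6 : Real.exp (n * E) = 1 := by exact_mod_cast h5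
    rw [Real.exp_eq_one_iff] at h6
    rcases mul_eq_zero.mp h6 with h | h
    · exact_mod_cast h
    · exact absurd h hE0
  have hrD : ∀ m n : ℤ, φ xR ^ m * φ xD ^ n = 1 → m = 0 ∧ n = 0 := by
    intro m n hmn
    rw [h2, h4, ← Complex.exp_int_mul, ← Complex.exp_int_mul, ← Complex.exp_add] at hmn
    have h5 : Complex.exp ((m * ρ + n * (E * ρ) : ℝ) : ℂ) = 1 := by push_cast; exact hmn
    rw [← Complex.ofReal_exp] at h5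
    have h6 : Real.exp (m * ρ + n * (E * ρ)) = 1 := by exact_mod_cast h5
    rw [Real.exp_eq_one_iff] at h6
    have h7 : ρ * (m + n * E) = 0 := by rw [← h6]; ring
    have h8 : (m : ℝ) + n * E = 0 := (mul_eq_zero.mp h7).resolve_left hρ
    by_cases hn : n = 0
    · subst hn
      simp at h8
      exact ⟨h8, rfl⟩
    · exfalso
      apply hE
      refine ⟨-(m : ℚ) / n, ?_⟩
      have hn' : (n : ℝ) ≠ 0 := by exact_mod_cast hn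
      push_cast
      field_simp
      linarith
  -- common denominator
  obtain ⟨d, hd, hden⟩ := exists_den ({xq, xR, xA, xD} : Finset F)
  have dq := hden xq (by simp)
  have dr := hden xR (by simp)
  have dA := hden xA (by simp)
  have dD := hden xD (by simp)
  -- bound for the conjugates
  obtain ⟨R0, hR0, hR0'⟩ : ∃ R0 : ℝ, 1 ≤ R0 ∧ ∀ σ : F →ₐ[ℚ] ℂ,
      ‖σ xq‖ ≤ R0 ∧ ‖σ xR‖ ≤ R0 ∧ ‖σ xA‖ ≤ R0 ∧ ‖σ xD‖ ≤ R0 := by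
    refine ⟨1 + ∑ σ : F →ₐ[ℚ] ℂ, (‖σ xq‖ + ‖σ xR‖ + ‖σ xA‖ + ‖σ xD‖), ?_, ?_⟩
    · have : 0 ≤ ∑ σ : F →ₐ[ℚ] ℂ, (‖σ xq‖ + ‖σ xR‖ + ‖σ xA‖ + ‖σ xD‖) :=
        Finset.sum_nonneg (fun σ _ => by positivity)
      linarith
    · intro σ
      have hle : ‖σ xq‖ + ‖σ xR‖ + ‖σ xA‖ + ‖σ xD‖ ≤
          ∑ σ : F →ₐ[ℚ] ℂ, (‖σ xq‖ + ‖σ xR‖ + ‖σ xA‖ + ‖σ xD‖) :=
        Finset.single_le_sum (f := fun σ : F →ₐ[ℚ] ℂ => ‖σ xq‖ + ‖σ xR‖ + ‖σ xA‖ + ‖σ xD‖)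
          (fun σ _ => by positivity) (Finset.mem_univ σ)
      have a1 := norm_nonneg (σ xq)
      have a2 := norm_nonneg (σ xR)
      have a3 := norm_nonneg (σ xA)
      have a4 := norm_nonneg (σ xD)
      refine ⟨?_, ?_, ?_, ?_⟩ <;> linarith
  set C2 : ℝ := 1 + Real.pi + |ρ| + ‖φ xq‖ + |E| with hC2def
  have hpi : 0 < Real.pi := Real.pi_pos
  have hρ' : 0 ≤ |ρ| := abs_nonneg _
  have hE' : 0 ≤ |E| := abs_nonneg _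
  have hq' : 0 ≤ ‖φ xq‖ := norm_nonneg _
  have hC2 : 1 ≤ C2 := by rw [hC2def]; linarith
  obtain ⟨n0, hn0⟩ := growth1 c d (Module.finrank ℚ F) R0 C2 hd hR0 hC2
  -- choose the parameter
  obtain ⟨n, hn1, hn2, hn3⟩ : ∃ n : ℕ, n0 ≤ n ∧ 2 ≤ n ∧ c < n :=
    ⟨max n0 (max 2 (c + 1)), le_max_left _ _, (le_max_left _ _).trans (le_max_right _ _),
      Nat.lt_of_succ_le ((le_max_right _ _).trans (le_max_right _ _))⟩
  have hgrow := hn0 n hn1 (by omega)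
  set K := n ^ 30 with hK
  set M := n ^ 17 with hM
  set S := n ^ 13 with hS
  set T := (c + 1) * n ^ 30 with hT
  have hnpos : 0 < n := by omega
  have hKpos : 1 ≤ K := Nat.one_le_pow _ _ hnpos
  have hMpos : 1 ≤ M := Nat.one_le_pow _ _ hnpos
  have hSpos : 1 ≤ S := Nat.one_le_pow _ _ hnpos
  have hTpos : 1 ≤ T := by
    rw [hT]; exact Nat.succ_le_of_lt (Nat.mul_pos (by omega) (by omega))
  -- numerical conditions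
  have hMK : M ≤ K := Nat.pow_le_pow_right hnpos (by norm_num)
  have c1 : c * K < T := by
    rw [hT]; rw [← hK]; nlinarith
  have c2 : c * M < T := lt_of_le_of_lt (Nat.mul_le_mul_left _ hMK) c1
  have hpn : ∀ a b : ℕ, a < b → n ^ a * n ≤ n ^ b := by
    intro a b hab
    rw [← pow_succ]; exact Nat.pow_le_pow_right hnpos hab
  have hT30 : n ^ 30 ≤ T := by rw [hT]; nlinarith
  have aux : ∀ (a b : ℕ) , a < b → c * n ^ a < n ^ b := by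
    intro a b hab
    calc c * n ^ a < n * n ^ a := Nat.mul_lt_mul_of_pos_right hn3 (Nat.pow_pos hnpos)
      _ = n ^ a * n := by ring
      _ ≤ n ^ b := hpn a b hab
  have c3 : c * K ^ 2 * M ^ 2 < T ^ 2 * S ^ 3 := by
    calc c * K ^ 2 * M ^ 2 = c * n ^ 94 := by rw [hK, hM]; ring
      _ < n ^ 99 := aux _ _ (by norm_num)
      _ = (n ^ 30) ^ 2 * S ^ 3 := by rw [hS]; ring
      _ ≤ T ^ 2 * S ^ 3 := by gcongr
  have c4 : c * K ^ 2 * M < T ^ 2 * S ^ 2 := by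
    calc c * K ^ 2 * M = c * n ^ 77 := by rw [hK, hM]; ring
      _ < n ^ 86 := aux _ _ (by norm_num)
      _ = (n ^ 30) ^ 2 * S ^ 2 := by rw [hS]; ring
      _ ≤ T ^ 2 * S ^ 2 := by gcongr
  have c5 : c * K * M ^ 2 < T ^ 2 * S ^ 2 := by
    calc c * K * M ^ 2 = c * n ^ 64 := by rw [hK, hM]; ring
      _ < n ^ 86 := aux _ _ (by norm_num)
      _ = (n ^ 30) ^ 2 * S ^ 2 := by rw [hS]; ring
      _ ≤ T ^ 2 * S ^ 2 := by gcongr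
  have c6 : c * K * M < T * S ^ 2 := by
    calc c * K * M = c * n ^ 47 := by rw [hK, hM]; ring
      _ < n ^ 56 := aux _ _ (by norm_num)
      _ = n ^ 30 * S ^ 2 := by rw [hS]; ring
      _ ≤ T * S ^ 2 := by gcongr
  have c7 : c * M ^ 2 < T * S ^ 2 := by
    calc c * M ^ 2 = c * n ^ 34 := by rw [hM]; ring
      _ < n ^ 56 := aux _ _ (by norm_num)
      _ = n ^ 30 * S ^ 2 := by rw [hS]; ring
      _ ≤ T * S ^ 2 := by gcongr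
  obtain ⟨cc, hcc⟩ := minor1 φ K M T S xq xR xA xD
    (hZE (φ xA) (φ xD) (φ xR) (φ xq) hA0 hD0 hr0 hq0 hAn hrD K M T S hKpos hMpos hTpos hSpos
      c1 c2 c3 c4 c5 c6 c7)
  apply hcc
  -- now the determinant vanishes
  have hcard : Fintype.card (J1 K M) = (K + 1) * ((K + 1) * ((M + 1) * (M + 1))) := by
    simp [J1, Fintype.card_prod]
  have hnrm : ∀ (m : ℕ), ‖(m : ℂ)‖ = m := fun m => Complex.norm_natCast m
  refine det_vanish φ (L := Fin 3) (J := J1 K M)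
    (fun j => ![0, (j.1 : ℕ), (j.2.1 : ℕ)])
    (fun j => ![(j.2.2.1 : ℂ) + j.2.2.2 * E, -(j.2.2.1 : ℂ), -(j.2.2.2 : ℂ)])
    (fun i => ![0, (cc i).1.1, (cc i).1.2.1])
    (fun i => ![((cc i).1.2.2.1 : ℂ) + (cc i).1.2.2.2.1 * (Real.pi * Complex.I)
        + (cc i).1.2.2.2.2 * ρ, ((cc i).1.2.2.1 : ℂ), φ xq * (cc i).1.2.2.2.1])
    (K + 4 * T) (n ^ 31) (fun _ => C2 * M) (fun _ => 4 * S * C2) (4 * C2 ^ 2 * (n : ℝ) ^ 30)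
    ?_ ?_ ?_ ?_ ?_ ?_ ?_ _ d (2 * K + 12 * (S * M)) hd
    ((((M : ℝ) + K) ^ (4 * T) * (4 * S * R0) ^ K) ^ 2 * R0 ^ (12 * (S * M)))
    ?_ ?_ ?_ ?_ ?_ ?_ ?_
  · intro _
    have : (1 : ℝ) ≤ M := by exact_mod_cast hMpos
    nlinarith
  · intro _
    have : (1 : ℝ) ≤ S := by exact_mod_cast hSpos
    nlinarith
  · intro _
    apply le_of_eq
    rw [hM, hS]; push_cast; ring
  · intro j l
    exact norm_a1_le E M j.2.2.1 j.2.2.2 (Nat.lt_succ_iff.mp j.2.2.1.2)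
      (Nat.lt_succ_iff.mp j.2.2.2.2) C2 (by rw [hC2def]; linarith) l
  · intro i l
    obtain ⟨hc1, hc2, hc3, hc4⟩ := (cc i).2
    exact norm_w1_le ρ (φ xq) S _ _ _ hc2 hc3 hc4 C2 (by rw [hC2def]; linarith) l
  · intro j i l
    have hk1 : (j.1 : ℕ) ≤ K := Nat.lt_succ_iff.mp j.1.2
    have hk2 : (j.2.1 : ℕ) ≤ K := Nat.lt_succ_iff.mp j.2.1.2
    obtain ⟨hc1, hc2, hc3, hc4⟩ := (cc i).2
    fin_cases l <;> simp <;> omega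
  · positivity
  · -- B ≥ 1
    have hM1 : (1 : ℝ) ≤ M := by exact_mod_cast hMpos
    have hS1 : (1 : ℝ) ≤ S := by exact_mod_cast hSpos
    have hK1 : (1 : ℝ) ≤ K := by exact_mod_cast hKpos
    have b1 : (1 : ℝ) ≤ ((M : ℝ) + K) ^ (4 * T) := one_le_pow₀ (by linarith)
    have b2 : (1 : ℝ) ≤ (4 * S * R0) ^ K := one_le_pow₀ (by nlinarith)
    have b3 : (1 : ℝ) ≤ R0 ^ (12 * (S * M)) := one_le_pow₀ hR0
    have b4 : (1 : ℝ) ≤ (((M : ℝ) + K) ^ (4 * T) * (4 * S * R0) ^ K) ^ 2 :=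
      one_le_pow₀ (one_le_mul_of_one_le_of_one_le b1 b2)
    exact one_le_mul_of_one_le_of_one_le b4 b3
  · intro j i
    have hk1 : (j.1 : ℕ) ≤ K := Nat.lt_succ_iff.mp j.1.2
    have hk2 : (j.2.1 : ℕ) ≤ K := Nat.lt_succ_iff.mp j.2.1.2
    have hm1 : (j.2.2.1 : ℕ) ≤ M := Nat.lt_succ_iff.mp j.2.2.1.2
    have hm2 : (j.2.2.2 : ℕ) ≤ M := Nat.lt_succ_iff.mp j.2.2.2.2
    obtain ⟨hc1, hc2, hc3, hc4⟩ := (cc i).2
    exact entry1_int dq dr dA dD K M S hk1 hk2 hm1 hm2 hc2 hc4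
  · intro σ j i
    have hk1 : (j.1 : ℕ) ≤ K := Nat.lt_succ_iff.mp j.1.2
    have hk2 : (j.2.1 : ℕ) ≤ K := Nat.lt_succ_iff.mp j.2.1.2
    have hm1 : (j.2.2.1 : ℕ) ≤ M := Nat.lt_succ_iff.mp j.2.2.1.2
    have hm2 : (j.2.2.2 : ℕ) ≤ M := Nat.lt_succ_iff.mp j.2.2.2.2
    obtain ⟨hc1, hc2, hc3, hc4⟩ := (cc i).2
    obtain ⟨g1, g2, g3, g4⟩ := hR0' σ
    have e1 := entry1_map (σ : F →+* ℂ) xq xR xA xD j.1 j.2.1 j.2.2.1 j.2.2.2 (cc i).1.1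
      (cc i).1.2.1 (cc i).1.2.2.1 (cc i).1.2.2.2.1 (cc i).1.2.2.2.2
    have e2 := entry1_norm hR0 g1 g2 g3 g4 K M S T hKpos hSpos hk1 hk2 hm1 hm2
      (t1 := (cc i).1.1) (t2 := (cc i).1.2.1) (by omega) (by omega) hc2 hc3 hc4
    exact (le_of_eq (congrArg norm e1)).trans e2
  · intro j i
    have e1 := entry1_map (φ : F →+* ℂ) xq xR xA xD j.1 j.2.1 j.2.2.1 j.2.2.2 (cc i).1.1
      (cc i).1.2.1 (cc i).1.2.2.1 (cc i).1.2.2.2.1 (cc i).1.2.2.2.2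
    have e2 := entry1_exp E ρ (φ xq) (φ xR) (φ xA) (φ xD) h1 h2 h3 h4 j.1 j.2.1 j.2.2.1 j.2.2.2
      (cc i).1.1 (cc i).1.2.1 (cc i).1.2.2.1 (cc i).1.2.2.2.1 (cc i).1.2.2.2.2
    refine Eq.trans e1 (Eq.trans e2 ?_)
    refine Finset.prod_congr rfl (fun l _ => ?_)
    fin_cases l <;> simp
  · rw [hcard]; positivity
  · rw [hcard, Fintype.card_fin]
    calc 2 * (n ^ 31) ^ 3 = 2 * n ^ 93 := by ring
      _ ≤ n * n ^ 93 := by gcongr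
      _ = K * (K * (M * M)) := by rw [hK, hM]; ring
      _ ≤ (K + 1) * ((K + 1) * ((M + 1) * (M + 1))) := by gcongr <;> omega
  · rw [hcard, Fintype.card_fin]
    exact_mod_cast hgrow

end Pool.Agent.H301R2.TR
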