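import Mathlib
import Pool.Agent.H301R2.TR.N1Main
import Pool.Agent.H301R2.TR.Alg
import Pool.Agent.H340R2.LW

set_option autoImplicit false

namespace Pool.Agent.H301R2.TR

/-- general form: for `E` irrational and `ρ ≠ 0` real, the numbers `π E`, `e^E`, `e^ρ`, `e^(E ρ)`
are not all algebraic -/
theorem N1_general (hZE : ZE1) (E ρ : ℝ) (hE : Irrational E) (hρ : ρ ≠ 0)
    (h1 : IsAlgebraic ℚ (Real.pi * E)) (h2 : IsAlgebraic ℚ (Real.exp E))
    (h3 : IsAlgebraic ℚ (Real.exp ρ)) (h4 : IsAlgebraic ℚ (Real.exp (E * ρ))) : False := by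
  classical
  have g1 : IsAlgebraic ℚ (Complex.I * Real.pi * E : ℂ) := by
    have := (Pool.Agent.H340R2.LW.isAlgebraic_I).mul (h1.algebraMap (A := ℂ))
    have e : (Complex.I * Real.pi * E : ℂ) = Complex.I * ((algebraMap ℝ ℂ) (Real.pi * E)) := by
      simp [mul_assoc]
    rw [e]; exact this
  have g2 : IsAlgebraic ℚ (Complex.exp E) := by
    have := h2.algebraMap (A := ℂ)
    have e : (Complex.exp E) = (algebraMap ℝ ℂ) (Real.exp E) := by simp
    rw [e]; exact this
  have g3 : IsAlgebraic ℚ (Complex.exp ρ) := by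
    have := h3.algebraMap (A := ℂ)
    have e : (Complex.exp ρ) = (algebraMap ℝ ℂ) (Real.exp ρ) := by simp
    rw [e]; exact this
  have g4 : IsAlgebraic ℚ (Complex.exp (E * ρ)) := by
    have := h4.algebraMap (A := ℂ)
    have e : (Complex.exp (E * ρ)) = (algebraMap ℝ ℂ) (Real.exp (E * ρ)) := by simp
    rw [e]; exact this
  obtain ⟨F, _, _, φ, hφ⟩ := exists_field
    ({(Complex.I * Real.pi * E : ℂ), Complex.exp E, Complex.exp ρ, Complex.exp (E * ρ)} : Finset ℂ) (by
      intro x hx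
      simp only [Finset.mem_insert, Finset.mem_singleton] at hx
      rcases hx with rfl | rfl | rfl | rfl
      · exact g1
      · exact g2
      · exact g3
      · exact g4)
  obtain ⟨xq, hxq⟩ := hφ (Complex.I * Real.pi * E) (by simp)
  obtain ⟨xA, hxA⟩ := hφ (Complex.exp E) (by simp)
  obtain ⟨xR, hxR⟩ := hφ (Complex.exp ρ) (by simp)
  obtain ⟨xD, hxD⟩ := hφ (Complex.exp (E * ρ)) (by simp)
  exact core1 hZE φ E ρ hE hρ xq xR xA xD hxq hxR hxA hxD

/-- `π e`, `e ^ e` and `π ^ e` are not all algebraic (given the zero estimate) -/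
theorem N1_of_ZE1 (hZE : ZE1) : ¬ (IsAlgebraic ℚ (Real.pi * Real.exp 1) ∧
    IsAlgebraic ℚ (Real.exp 1 ^ Real.exp 1) ∧ IsAlgebraic ℚ (Real.pi ^ Real.exp 1)) := by
  rintro ⟨h1, h2, h3⟩
  have hirr : Irrational (Real.exp 1) :=
    Pool.Agent.H340R2.LW.transcendental_exp_one.irrational
  have hpi := Real.pi_pos
  have he : Real.exp 1 ^ Real.exp 1 = Real.exp (Real.exp 1) := by
    rw [← Real.exp_one_rpow (Real.exp 1)]
  have hρ : Real.exp (1 + Real.log Real.pi) = Real.pi * Real.exp 1 := by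
    rw [Real.exp_add, Real.exp_log hpi, mul_comm]
  refine N1_general hZE (Real.exp 1) (1 + Real.log Real.pi) hirr ?_ h1 ?_ ?_ ?_
  · have : 0 < Real.log Real.pi := Real.log_pos (by linarith [Real.pi_gt_three])
    linarith
  · rw [← he]; exact h2
  · rw [hρ]; exact h1
  · have : Real.exp (Real.exp 1 * (1 + Real.log Real.pi)) =
        Real.exp 1 ^ Real.exp 1 * Real.pi ^ Real.exp 1 := by
      rw [he, Real.rpow_def_of_pos hpi, ← Real.exp_add]
      congr 1; ring
    rw [this]
    exact h2.mul h3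

end Pool.Agent.H301R2.TR
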